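import Pool.Agent.Lib.MP_49c203_an.C.Defs

/-! # row qc-Ca : `K` compact symmetric: `‖K - P_n K P_n‖ → 0`

`P_n = MP49c203.cP b n` (`cP_apply`, `inner_cP`, `cT_norm_le`, `cP_tendsto`, `cT = 1 - cP`).
`cP_symm` : `⟪P_n u, v⟫ = ∑ ⟪b i,u⟫⟪b i,v⟫ = ⟪u, P_n v⟫`.
`tail_K` : `‖(1-P_n)K‖ → 0`: the closure of `K(ball)` is compact, hence for `δ > 0` there are finitely many `x_1..x_m` with
 every `K u`, `‖u‖ ≤ 1`, within `δ/2` of some `x_j`; choose `n` with `‖x_j - P_n x_j‖ ≤ δ/2` for all `j` (`cP_tendsto`); `‖1-P_n‖ ≤ 1`.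
 For `m ≥ n` as well (`‖x - P_m x‖` is antitone, or use eventually for all `j`).
`K_tail` : `‖K(1-P_n)u‖² = ⟪K(1-P_n)u, K(1-P_n)u⟫ = ⟪(1-P_n)u, (1-P_n)K(K(1-P_n)u)⟫`… or by adjoints: `K(1-P_n) = ((1-P_n)K)^*`, same norm
 (directly: `‖K(1-P_n)u‖ = sup_{‖v‖≤1} ⟪K(1-P_n)u,v⟫ = sup ⟪u,(1-P_n)K v⟫ ≤ ‖u‖‖(1-P_n)K‖`; take `v = K(1-P_n)u` normalised).
`compact_cut` : `K - P_nKP_n = (1-P_n)K + P_nK(1-P_n)`.
-/

set_option autoImplicit false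

namespace QC49

noncomputable section

open scoped RealInnerProductSpace
open Filter Topology MP49c203

variable {H : Type*} [NormedAddCommGroup H] [InnerProductSpace ℝ H] [CompleteSpace H]

theorem cP_symm (b : HilbertBasis ℕ ℝ H) (n : ℕ) (u v : H) :
    ⟪cP b n u, v⟫ = ⟪u, cP b n v⟫ := by
  rw [inner_cP, real_inner_comm, inner_cP]
  exact Finset.sum_congr rfl fun i _ => mul_comm _ _

theorem tail_K (b : HilbertBasis ℕ ℝ H) {K : H →L[ℝ] H} (hK : IsCompactOperator K) {δ : ℝ}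
    (hδ : 0 < δ) : ∃ n, ∀ m ≥ n, ∀ u, ‖K u - cP b m (K u)‖ ≤ δ * ‖u‖ := by
  obtain ⟨S, hS, hKS⟩ := hK.image_closedBall_subset_compact 1
  obtain ⟨t, -, htf, htS⟩ := hS.finite_cover_balls (show (0 : ℝ) < δ / 2 by linarith)
  have hev : ∀ᶠ m in atTop, ∀ y ∈ t, ‖cT b m y‖ < δ / 2 := by
    rw [Filter.eventually_all_finite htf]
    intro y _
    exact (cT_tendsto b y).eventually (gt_mem_nhds (by linarith))
  obtain ⟨n, hn⟩ := eventually_atTop.1 hev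
  refine ⟨n, fun m hm u => ?_⟩
  have key : ∀ v : H, ‖v‖ ≤ 1 → ‖cT b m (K v)‖ ≤ δ := by
    intro v hv
    have h1 : K v ∈ S := hKS ⟨v, by simpa using hv, rfl⟩
    obtain ⟨y, hy, hyb⟩ := Set.mem_iUnion₂.1 (htS h1)
    have h2 : ‖K v - y‖ < δ / 2 := by rwa [mem_ball_iff_norm] at hyb
    have h3 : cT b m (K v) = cT b m (K v - y) + cT b m y := by rw [map_sub]; abel
    rw [h3]
    refine (norm_add_le _ _).trans ?_
    have h4 := cT_norm_le b m (K v - y)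
    have h5 := hn m hm y hy
    linarith
  rw [← cT_apply]
  by_cases hu : ‖u‖ = 0
  · have : u = 0 := norm_eq_zero.1 hu
    rw [this]; simp
  · have hu' : 0 < ‖u‖ := lt_of_le_of_ne (norm_nonneg _) (Ne.symm hu)
    have h6 : u = ‖u‖ • (‖u‖⁻¹ • u) := by rw [smul_smul, mul_inv_cancel₀ hu, one_smul]
    have h7 : ‖‖u‖⁻¹ • u‖ ≤ 1 := by
      rw [norm_smul, norm_inv, norm_norm, inv_mul_cancel₀ hu]
    have h8 := key _ h7
    have h9 : cT b m (K u) = ‖u‖ • cT b m (K (‖u‖⁻¹ • u)) := by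
      rw [← map_smul, ← map_smul, ← h6]
    rw [h9, norm_smul, norm_norm, mul_comm]
    exact mul_le_mul_of_nonneg_right h8 (norm_nonneg _)

theorem K_tail (b : HilbertBasis ℕ ℝ H) {K : H →L[ℝ] H} (hKs : ∀ u v, ⟪K u, v⟫ = ⟪u, K v⟫)
    {δ : ℝ} {n : ℕ} (h : ∀ u, ‖K u - cP b n (K u)‖ ≤ δ * ‖u‖) (u : H) :
    ‖K (u - cP b n u)‖ ≤ δ * ‖u‖ := by
  set w := K (u - cP b n u) with hw
  have h1 : ‖w‖ ^ 2 = ⟪u, K w - cP b n (K w)⟫ := by
    rw [← real_inner_self_eq_norm_sq]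
    have e1 : ⟪w, w⟫ = ⟪u - cP b n u, K w⟫ := hKs (u - cP b n u) w
    rw [e1, inner_sub_left, cP_symm, ← inner_sub_right]
  have h2 : ‖w‖ ^ 2 ≤ δ * ‖u‖ * ‖w‖ := by
    rw [h1]
    calc ⟪u, K w - cP b n (K w)⟫ ≤ ‖u‖ * ‖K w - cP b n (K w)‖ := real_inner_le_norm _ _
      _ ≤ ‖u‖ * (δ * ‖w‖) := mul_le_mul_of_nonneg_left (h w) (norm_nonneg _)
      _ = δ * ‖u‖ * ‖w‖ := by ring
  by_cases hw0 : ‖w‖ = 0
  · rw [hw0]
    exact (norm_nonneg _).trans (h u)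
  · have hw' : 0 < ‖w‖ := lt_of_le_of_ne (norm_nonneg _) (Ne.symm hw0)
    rw [sq] at h2
    exact le_of_mul_le_mul_right h2 hw'

theorem compact_cut (b : HilbertBasis ℕ ℝ H) {K : H →L[ℝ] H} (hK : IsCompactOperator K)
    (hKs : ∀ u v, ⟪K u, v⟫ = ⟪u, K v⟫) {δ : ℝ} (hδ : 0 < δ) :
    ∃ n, ∀ u, ‖K u - cP b n (K (cP b n u))‖ ≤ δ * ‖u‖ := by
  obtain ⟨n, hn⟩ := tail_K b hK (show (0 : ℝ) < δ / 2 by linarith)
  refine ⟨n, fun u => ?_⟩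
  have h1 := hn n le_rfl
  have h2 := K_tail b hKs h1 u
  have hP : ∀ w : H, ‖cP b n w‖ ≤ ‖w‖ := by
    intro w
    have e1 : ‖cP b n w‖ ^ 2 = ∑ i ∈ Finset.range n, ⟪b i, w⟫ ^ 2 := by
      rw [cP_apply, norm_sum_sq]
    have e2 := uu_nonneg b n w
    unfold uu at e2
    exact (sq_le_sq₀ (norm_nonneg _) (norm_nonneg _)).1 (by rw [e1]; linarith)
  have h3 : K u - cP b n (K (cP b n u))
      = (K u - cP b n (K u)) + cP b n (K (u - cP b n u)) := by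
    rw [map_sub K, map_sub (cP b n)]; abel
  rw [h3]
  refine (norm_add_le _ _).trans ?_
  have h4 := (hP (K (u - cP b n u))).trans h2
  have h5 := h1 u
  linarith

end

end QC49
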