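import Pool.Agent.Lib.MP_49c203_an.C.Ca

/-! # row qc-Cb : diagonalisation of `P_n K P_n` and the spectral approximation

`diag_cut` : the real symmetric matrix `A l m = ⟪b l, K (b m)⟫` (`l m : Fin n`) is Hermitian; `Matrix.IsHermitian.eigenvectorBasis` is an orthonormal basis `f_i` of
 `EuclideanSpace ℝ (Fin n)`, `A f_i = k_i f_i` (`Matrix.IsHermitian.mulVec_eigenvectorBasis`).  Put `v i = ∑ l, f_i l • b l`.
 `v` orthonormal (as `b` is), `⟪b l, v i⟫ = 0` for `l ≥ n`.  For `u`: `P_n K P_n u = ∑_l ∑_m A l m ⟪b m,u⟫ b l` and with `c_m = ⟪b m,u⟫`, `c = ∑_i ⟨f_i,c⟩ f_i`,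
 `⟨f_i,c⟩ = ⟪v i,u⟫`, so `P_nKP_n u = ∑_i k_i ⟪v i,u⟫ v i`.
 (Alternative: `LinearMap.IsSymmetric.eigenvectorBasis` for the compression of `K` to the `n`-dimensional subspace spanned by `b 0, .., b (n-1)`.)
 `|k i| = |⟪P_nKP_n v_i, v_i⟫| = |⟪K v_i, v_i⟫| ≤ ‖K‖`.
`spectral_approx` : `compact_cut` + `diag_cut`.
-/

set_option autoImplicit false

namespace QC49

noncomputable section

open scoped RealInnerProductSpace
open Filter Topology MP49c203

variable {H : Type*} [NormedAddCommGroup H] [InnerProductSpace ℝ H] [CompleteSpace H]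

/-- synthesis map -/
private def CbJ (b : HilbertBasis ℕ ℝ H) (n : ℕ) : EuclideanSpace ℝ (Fin n) →ₗ[ℝ] H where
  toFun c := ∑ l : Fin n, c l • b (l : ℕ)
  map_add' c d := by
    rw [← Finset.sum_add_distrib]
    refine Finset.sum_congr rfl fun l _ => ?_
    rw [PiLp.add_apply, add_smul]
  map_smul' r c := by
    rw [RingHom.id_apply, Finset.smul_sum]
    refine Finset.sum_congr rfl fun l _ => ?_
    rw [PiLp.smul_apply, smul_eq_mul, mul_smul]

/-- analysis map -/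
private def CbS (b : HilbertBasis ℕ ℝ H) (n : ℕ) : H →ₗ[ℝ] EuclideanSpace ℝ (Fin n) where
  toFun u := WithLp.toLp 2 fun l : Fin n => ⟪b (l : ℕ), u⟫
  map_add' u v := by
    ext l
    simp [inner_add_right]
  map_smul' r u := by
    ext l
    simp [inner_smul_right]

omit [CompleteSpace H] in
private theorem CbJ_apply (b : HilbertBasis ℕ ℝ H) (n : ℕ) (c : EuclideanSpace ℝ (Fin n)) :
    CbJ b n c = ∑ l : Fin n, c l • b (l : ℕ) := rfl

omit [CompleteSpace H] in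
private theorem CbS_apply (b : HilbertBasis ℕ ℝ H) (n : ℕ) (u : H) (l : Fin n) :
    CbS b n u l = ⟪b (l : ℕ), u⟫ := rfl

private theorem Cb_adj (b : HilbertBasis ℕ ℝ H) (n : ℕ) (c : EuclideanSpace ℝ (Fin n)) (u : H) :
    ⟪CbJ b n c, u⟫ = ⟪c, CbS b n u⟫ := by
  rw [CbJ_apply, sum_inner, PiLp.inner_apply]
  refine Finset.sum_congr rfl fun l _ => ?_
  rw [real_inner_smul_left, CbS_apply]
  simp [mul_comm]

private theorem Cb_SJ (b : HilbertBasis ℕ ℝ H) (n : ℕ) (c : EuclideanSpace ℝ (Fin n)) :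
    CbS b n (CbJ b n c) = c := by
  ext l
  rw [CbS_apply, CbJ_apply, inner_sum, Finset.sum_eq_single l]
  · rw [real_inner_smul_right, real_inner_self_eq_norm_sq, b.orthonormal.1]
    simp
  · intro m _ hm
    rw [real_inner_smul_right, b.orthonormal.2 (fun h => hm (Fin.ext h.symm)), mul_zero]
  · intro h
    exact absurd (Finset.mem_univ l) h

private theorem Cb_cP (b : HilbertBasis ℕ ℝ H) (n : ℕ) (u : H) :
    cP b n u = CbJ b n (CbS b n u) := by
  rw [cP_apply, CbJ_apply, Finset.sum_range]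
  rfl

theorem diag_cut (b : HilbertBasis ℕ ℝ H) {K : H →L[ℝ] H} (hKs : ∀ u v, ⟪K u, v⟫ = ⟪u, K v⟫)
    (n : ℕ) :
    ∃ (v : Fin n → H) (k : Fin n → ℝ), Orthonormal ℝ v ∧ (∀ i, |k i| ≤ ‖K‖) ∧
      (∀ i l, n ≤ l → ⟪b l, v i⟫ = 0) ∧
      ∀ u, cP b n (K (cP b n u)) = ∑ i, k i • ⟪v i, u⟫ • v i := by
  classical
  let T : EuclideanSpace ℝ (Fin n) →ₗ[ℝ] EuclideanSpace ℝ (Fin n) :=
    (CbS b n).comp ((K : H →ₗ[ℝ] H).comp (CbJ b n))
  have hTa : ∀ c, T c = CbS b n (K (CbJ b n c)) := fun c => rfl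
  have hT : T.IsSymmetric := by
    intro c d
    rw [hTa, hTa, real_inner_comm, ← Cb_adj, ← Cb_adj, real_inner_comm, hKs]
  have hdim : Module.finrank ℝ (EuclideanSpace ℝ (Fin n)) = n := by simp
  let e := hT.eigenvectorBasis hdim
  have hTe : ∀ i, T (e i) = hT.eigenvalues hdim i • e i := fun i =>
    hT.apply_eigenvectorBasis hdim i
  have hee : ∀ i j, ⟪CbJ b n (e i), CbJ b n (e j)⟫ = ⟪e i, e j⟫ := by
    intro i j
    rw [Cb_adj, Cb_SJ]
  have hno : ∀ i, ‖CbJ b n (e i)‖ = 1 := by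
    intro i
    have h1 : ‖CbJ b n (e i)‖ ^ 2 = 1 := by
      rw [← real_inner_self_eq_norm_sq, hee, real_inner_self_eq_norm_sq, e.orthonormal.1, one_pow]
    nlinarith [norm_nonneg (CbJ b n (e i))]
  refine ⟨fun i => CbJ b n (e i), fun i => hT.eigenvalues hdim i, ⟨hno, ?_⟩, ?_, ?_, ?_⟩
  · intro i j hij
    rw [hee]
    exact e.orthonormal.2 hij
  · intro i
    have h1 : hT.eigenvalues hdim i = ⟪K (CbJ b n (e i)), CbJ b n (e i)⟫ := by
      rw [real_inner_comm, Cb_adj, ← hTa, hTe, real_inner_smul_right, real_inner_self_eq_norm_sq,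
        e.orthonormal.1]
      ring
    show |hT.eigenvalues hdim i| ≤ ‖K‖
    rw [h1]
    refine (abs_real_inner_le_norm _ _).trans ?_
    rw [hno, mul_one]
    refine (K.le_opNorm _).trans ?_
    rw [hno, mul_one]
  · intro i l hl
    show ⟪b l, CbJ b n (e i)⟫ = 0
    rw [CbJ_apply, inner_sum]
    refine Finset.sum_eq_zero fun m _ => ?_
    rw [real_inner_smul_right, b.orthonormal.2 (fun h => ?_), mul_zero]
    have := m.2
    omega
  · intro u
    rw [Cb_cP b n u, Cb_cP b n (K _), ← hTa]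
    have h1 : CbS b n u = ∑ i, ⟪CbJ b n (e i), u⟫ • e i := by
      conv_lhs => rw [← e.sum_repr' (CbS b n u)]
      refine Finset.sum_congr rfl fun i _ => ?_
      rw [Cb_adj]
    rw [h1, map_sum, map_sum]
    refine Finset.sum_congr rfl fun i _ => ?_
    rw [map_smul, hTe, map_smul, map_smul, smul_smul, smul_smul, mul_comm]

theorem spectral_approx (b : HilbertBasis ℕ ℝ H) {K : H →L[ℝ] H} (hK : IsCompactOperator K)
    (hKs : ∀ u v, ⟪K u, v⟫ = ⟪u, K v⟫) {δ : ℝ} (hδ : 0 < δ) :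
    ∃ (n : ℕ) (v : Fin n → H) (k : Fin n → ℝ), Orthonormal ℝ v ∧ (∀ i, |k i| ≤ ‖K‖) ∧
      (∀ i l, n ≤ l → ⟪b l, v i⟫ = 0) ∧
      ∀ u, ‖K u - ∑ i, k i • ⟪v i, u⟫ • v i‖ ≤ δ * ‖u‖ := by
  obtain ⟨n, hn⟩ := compact_cut b hK hKs hδ
  obtain ⟨v, k, h1, h2, h3, h4⟩ := diag_cut b hKs n
  refine ⟨n, v, k, h1, h2, h3, fun u => ?_⟩
  rw [← h4 u]
  exact hn u

end

end QC49
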