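import Pool.Agent.Lib.MP_49c203_an.C.Defs
import Pool.Agent.Lib.MP_49c203_an.I.Lim

/-! # row qc-Cc : the radius function, fresh indices, compactness of the adjoint

`lip_minorant` : `ε` continuous positive.  `C := {(y,t) : E × ℝ | ε y ≤ t}` is closed, `(x,0) ∉ C`; `ρ x := infDist (x,0) C` is positive, 1-Lipschitz
 (`infDist_le_infDist_add_dist`), and `≤ dist ((x,0),(x,ε x)) = ε x`.
`radius2` : `exists_radius` (I/Lim.lean, helper44) with `D = K`, `m = η/4`, `ρ = lip_minorant ε`.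
`fresh` : `m p := ∑_{j ≤ p} n j + ∑_{j<p} 2^(n j)`, `idx p c := m p + code c` where `code : (Fin (n p) → Bool) ≃ Fin (2^(n p))`
 (`Fintype.equivFinOfCardEq`).  `m p + 2^(n p) ≤ m (p+1)`, so for `p < p'` `idx p c < m (p+1) ≤ m p' ≤ idx p' c'`; `n j ≤ m p` for `j ≤ p`.
`adjoint_compact` : `T` compact on a Hilbert space.  For a bounded sequence (or by total boundedness): `‖T^*u‖² = ⟪T T^*u, u⟫ ≤ ‖T T^* u‖‖u‖`.
 `T ∘ T^*` is compact.  So `T^*(ball)` is totally bounded: given `ε`, cover the totally bounded set `T T^*(ball)` by finitely many balls of radius `ε²/2` centred at points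
 `T T^* u_j` (`‖u_j‖ ≤ 1`); then for `‖u‖ ≤ 1`: `‖T^*(u-u_j)‖² ≤ 2‖TT^*(u-u_j)‖ ≤ ε²`.
 (Search Mathlib first for an existing statement about adjoints of compact operators.)
-/

set_option autoImplicit false

namespace QC49

noncomputable section

open scoped RealInnerProductSpace
open Filter Topology

variable {H : Type*} [NormedAddCommGroup H] [InnerProductSpace ℝ H] [CompleteSpace H]

theorem lip_minorant {E : Type*} [NormedAddCommGroup E] [NormedSpace ℝ E] (ε : E → ℝ)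
    (hε : Continuous ε) (hε0 : ∀ x, 0 < ε x) :
    ∃ ρ : E → ℝ, (∀ x, 0 < ρ x) ∧ (∀ x y, ρ x ≤ ρ y + ‖x - y‖) ∧ ∀ x, ρ x ≤ ε x := by
  set C : Set (E × ℝ) := {p | ε p.1 ≤ p.2} with hC
  have hCc : IsClosed C := isClosed_le (hε.comp continuous_fst) continuous_snd
  have hne : C.Nonempty := ⟨(0, ε 0), le_refl (ε 0)⟩
  refine ⟨fun x => Metric.infDist (x, (0 : ℝ)) C, fun x => ?_, fun x y => ?_, fun x => ?_⟩
  · refine (hCc.notMem_iff_infDist_pos hne).mp (fun h => ?_)
    have h1 : ε x ≤ 0 := h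
    exact absurd (hε0 x) (not_lt.mpr h1)
  · have h1 := Metric.infDist_le_infDist_add_dist (s := C) (x := (x, (0 : ℝ))) (y := (y, (0 : ℝ)))
    have h2 : dist (x, (0 : ℝ)) (y, (0 : ℝ)) = ‖x - y‖ := by
      rw [Prod.dist_eq, dist_self, dist_eq_norm, max_eq_left (norm_nonneg _)]
    rw [h2] at h1
    exact h1
  · have h1 : ((x, ε x) : E × ℝ) ∈ C := le_refl (ε x)
    have h2 := Metric.infDist_le_dist_of_mem (x := ((x, (0 : ℝ)) : E × ℝ)) h1
    have h3 : dist (x, (0 : ℝ)) (x, ε x) = ε x := by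
      rw [Prod.dist_eq, dist_self, Real.dist_eq]
      simp only
      rw [zero_sub, abs_neg, abs_of_pos (hε0 x), max_eq_right (hε0 x).le]
    rw [h3] at h2
    exact h2

theorem radius2 (K : H → H →L[ℝ] H) (hK : Continuous K) (ε : H → ℝ) (hε : Continuous ε)
    (hε0 : ∀ x, 0 < ε x) {η : ℝ} (hη : 0 < η) :
    ∃ ρ : H → ℝ, (∀ x, 0 < ρ x) ∧ (∀ x y, ρ x ≤ ρ y + ‖x - y‖) ∧ (∀ x, ρ x ≤ ε x) ∧
      ∀ x y, ‖y - x‖ ≤ ρ x → ‖K y - K x‖ ≤ η / 4 := by
  obtain ⟨ρ, h1, h2, h3⟩ := lip_minorant ε hε hε0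
  obtain ⟨ρ', g1, g2, g3, g4⟩ := exists_radius K hK (fun _ => η / 4) continuous_const
    (fun _ => by positivity) ρ h1 h2
  refine ⟨ρ', g1, g2, fun x => ?_, fun x y h => g4 x y ?_⟩
  · have := g3 x
    have := h1 x
    have := h3 x
    linarith
  · have := g1 x
    linarith

theorem fresh (n : ℕ → ℕ) :
    ∃ idx : ∀ p, (Fin (n p) → Bool) → ℕ, (∀ p c j, j ≤ p → n j ≤ idx p c) ∧
      (∀ p, Function.Injective (idx p)) ∧ ∀ p p' c c', p ≠ p' → idx p c ≠ idx p' c' := by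
  classical
  have he : ∀ p, Nonempty ((Fin (n p) → Bool) ≃ Fin (2 ^ (n p))) := fun p =>
    ⟨Fintype.equivFinOfCardEq (by simp)⟩
  let e : ∀ p, (Fin (n p) → Bool) ≃ Fin (2 ^ (n p)) := fun p => (he p).some
  let m : ℕ → ℕ := fun p => ∑ j ∈ Finset.range (p + 1), n j + ∑ j ∈ Finset.range p, 2 ^ (n j)
  have hm1 : ∀ p, m p + 2 ^ (n p) ≤ m (p + 1) := by
    intro p
    show ∑ j ∈ Finset.range (p + 1), n j + ∑ j ∈ Finset.range p, 2 ^ (n j) + 2 ^ (n p) ≤
      ∑ j ∈ Finset.range (p + 1 + 1), n j + ∑ j ∈ Finset.range (p + 1), 2 ^ (n j)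
    rw [Finset.sum_range_succ _ (p + 1), Finset.sum_range_succ (fun j => 2 ^ (n j)) p]
    omega
  have hmono : Monotone m := monotone_nat_of_le_succ (fun p => le_trans (Nat.le_add_right _ _) (hm1 p))
  have hlt : ∀ p p' c c', p < p' → m p + (e p c : ℕ) < m p' + (e p' c' : ℕ) := by
    intro p p' c c' h
    have h1 : m (p + 1) ≤ m p' := hmono h
    have h2 := hm1 p
    have h3 := (e p c).isLt
    omega
  refine ⟨fun p c => m p + (e p c : ℕ), fun p c j hj => ?_, fun p c c' h => ?_, fun p p' c c' h => ?_⟩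
  · have h1 : n j ≤ ∑ j ∈ Finset.range (p + 1), n j :=
      Finset.single_le_sum (f := n) (fun _ _ => Nat.zero_le _) (Finset.mem_range.mpr (by omega))
    show n j ≤ ∑ j ∈ Finset.range (p + 1), n j + ∑ j ∈ Finset.range p, 2 ^ (n j) + (e p c : ℕ)
    omega
  · have h1 : m p + (e p c : ℕ) = m p + (e p c' : ℕ) := h
    exact (e p).injective (Fin.ext (by omega))
  · rcases lt_or_gt_of_ne h with h1 | h1
    · exact (hlt p p' c c' h1).ne
    · exact (hlt p' p c' c h1).ne'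

theorem adjoint_compact {T : H →L[ℝ] H} (hT : IsCompactOperator T) :
    IsCompactOperator (ContinuousLinearMap.adjoint T) := by
  classical
  set A := ContinuousLinearMap.adjoint T with hA
  have hTA : IsCompactOperator (T ∘L A) := hT.comp_clm A
  have hS : IsCompact (closure ((T ∘L A) '' Metric.ball 0 1)) :=
    (isCompactOperator_iff_isCompact_closure_image_ball (T ∘L A).toLinearMap one_pos).mp hTA
  have hSt : TotallyBounded ((T ∘L A) '' Metric.ball (0 : H) 1) :=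
    hS.totallyBounded.subset subset_closure
  have key : ∀ u v : H, ‖A u - A v‖ ^ 2 ≤ ‖T (A u) - T (A v)‖ * ‖u - v‖ := by
    intro u v
    have h1 : ‖A (u - v)‖ ^ 2 = inner ℝ (T (A (u - v))) (u - v) := by
      rw [← ContinuousLinearMap.adjoint_inner_right, ← hA, real_inner_self_eq_norm_sq]
    have h2 : inner ℝ (T (A (u - v))) (u - v) ≤ ‖T (A (u - v))‖ * ‖u - v‖ :=
      real_inner_le_norm _ _
    rw [← h1, map_sub, map_sub] at h2
    exact h2
  have hAt : TotallyBounded (A '' Metric.ball (0 : H) 1) := by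
    rw [Metric.totallyBounded_iff]
    intro ε hε
    obtain ⟨t, hts, htf, htc⟩ := Metric.finite_approx_of_totallyBounded hSt (ε ^ 2 / 4) (by positivity)
    have hex : ∀ y : H, ∃ u : H, y ∈ t → u ∈ Metric.ball (0 : H) 1 ∧ T (A u) = y := by
      intro y
      by_cases hy : y ∈ t
      · obtain ⟨u, hu, huy⟩ := hts hy
        exact ⟨u, fun _ => ⟨hu, huy⟩⟩
      · exact ⟨0, fun h => absurd h hy⟩
    choose w hw using hex
    refine ⟨(fun y => A (w y)) '' t, htf.image _, ?_⟩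
    rintro _ ⟨u, hu, rfl⟩
    have h1 : T (A u) ∈ ⋃ y ∈ t, Metric.ball y (ε ^ 2 / 4) := htc ⟨u, hu, rfl⟩
    simp only [Set.mem_iUnion, exists_prop] at h1
    obtain ⟨y, hy, hyu⟩ := h1
    obtain ⟨h2, h3⟩ := hw y hy
    simp only [Set.mem_iUnion, exists_prop]
    refine ⟨A (w y), ⟨y, hy, rfl⟩, ?_⟩
    rw [Metric.mem_ball, dist_eq_norm] at hyu ⊢
    have h4 := key u (w y)
    rw [h3] at h4
    have h5 : ‖u - w y‖ ≤ 2 := by
      have h6 : ‖u‖ < 1 := by simpa using hu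
      have h7 : ‖w y‖ < 1 := by simpa using h2
      have h8 := norm_sub_le u (w y)
      linarith
    have h9 : ‖A u - A (w y)‖ ^ 2 < ε ^ 2 := by
      have h10 : ‖T (A u) - y‖ * ‖u - w y‖ ≤ ε ^ 2 / 4 * 2 :=
        mul_le_mul hyu.le h5 (norm_nonneg _) (by positivity)
      have h11 : 0 < ε ^ 2 := by positivity
      linarith
    exact lt_of_pow_lt_pow_left₀ 2 hε.le h9
  have hc : IsCompact (closure (A '' Metric.ball (0 : H) 1)) :=
    isCompact_iff_totallyBounded_isComplete.mpr ⟨hAt.closure, isClosed_closure.isComplete⟩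
  exact (isCompactOperator_iff_isCompact_closure_image_ball A.toLinearMap one_pos).mpr hc

end

end QC49
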