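import Pool.Agent.Lib.MP_49c203_an.C.Defs

/-! # row qc-Cd : the sine part of the package map

`φ_c(x) = ⟪qv_c, x⟫/e`, `al` has derivative `al' x` (bounded by `C`, continuous), `0 ≤ al ≤ 1`, `al' x = 0` where `al x = 0` (hypothesis `h0`).
`V1 x = ∑_c [ (e·al·sin φ_c) • (a•(-ν_c + θ Bp_c)) + (e/4·al²·sin(2φ_c)) • ((τa²θ) • Rv_c) ]`.
Derivative: `d(e·al·sin φ) = al cos φ ⟪qv,·⟫ + e sin φ al'`; `d(e/4·al² sin 2φ) = ½ al² cos 2φ ⟪qv,·⟫ + (e/2) al sin 2φ al'`, and
 `½ al² cos 2φ = al² cos² φ - al²/2 = -zc al (cos φ)` (`Real.cos_two_mul`), so the `⟪qv,·⟫` part is exactly `Np` with slopes `cos φ_c`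
 (`dirv`, `Np` in Defs) and the rest is `Er1`.
`V1_norm`, `Er1_norm` : with `C0 = ∑_c (‖a•(-ν+θBp)‖ + ‖(τa²θ)•Rv‖)`: `‖V1‖ ≤ e C0`, `‖Er1‖ ≤ e C C0` (`|sin|,|al| ≤ 1`, `norm_smulRight_apply`).
`Er1` compact: finite sum of `smulRight` (`MP49c203.isCompactOperator_smulRight`, `isCompactOperator_sum`).
-/

set_option autoImplicit false

namespace QC49

noncomputable section

open scoped RealInnerProductSpace
open Filter Topology

variable {H : Type*} [NormedAddCommGroup H] [InnerProductSpace ℝ H]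

/-- phase -/
def phs (X : Pk H) (a e : ℝ) (c : Fin X.n → Bool) (x : H) : ℝ := ⟪X.qv a c, x⟫ / e

def V1 (X : Pk H) (a e : ℝ) (al : H → ℝ) (x : H) : H :=
  ∑ c, ((e * al x * Real.sin (phs X a e c x)) • (a • (-(X.ν c) + X.th a • X.Bp c))
    + (e / 4 * al x ^ 2 * Real.sin (2 * phs X a e c x)) • ((tau * a ^ 2 * X.th a) • X.Rv c))

def Er1 (X : Pk H) (a e : ℝ) (al : H → ℝ) (al' : H → H →L[ℝ] ℝ) (x : H) : H →L[ℝ] H :=
  ∑ c, (((e * Real.sin (phs X a e c x)) • al' x).smulRight (a • (-(X.ν c) + X.th a • X.Bp c))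
    + ((e / 2 * al x * Real.sin (2 * phs X a e c x)) • al' x).smulRight
        ((tau * a ^ 2 * X.th a) • X.Rv c))

def C0 (X : Pk H) (a : ℝ) : ℝ :=
  ∑ c, (‖a • (-(X.ν c) + X.th a • X.Bp c)‖ + ‖(tau * a ^ 2 * X.th a) • X.Rv c‖)

theorem Cd_phs (X : Pk H) (a e : ℝ) (c : Fin X.n → Bool) (x : H) :
    HasFDerivAt (phs X a e c) ((1 / e) • innerSL ℝ (X.qv a c)) x := by
  have h : phs X a e c = fun y => (1 / e) * (innerSL ℝ (X.qv a c)) y := by
    funext y
    simp only [phs, innerSL_apply_apply]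
    ring
  rw [h]
  exact ((innerSL ℝ (X.qv a c)).hasFDerivAt).const_mul (1 / e)

theorem Cd_phs_cont (X : Pk H) (a e : ℝ) (c : Fin X.n → Bool) : Continuous (phs X a e c) :=
  continuous_iff_continuousAt.2 fun x => (Cd_phs X a e c x).continuousAt

theorem Cd_one (X : Pk H) (a : ℝ) {e : ℝ} (he : 0 < e) (al : H → ℝ) (al' : H → H →L[ℝ] ℝ)
    (hal : ∀ x, HasFDerivAt al (al' x) x) (x : H) (c : Fin X.n → Bool) :
    HasFDerivAt (fun y => (e * al y * Real.sin (phs X a e c y)) •
        (a • (-(X.ν c) + X.th a • X.Bp c))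
      + (e / 4 * al y ^ 2 * Real.sin (2 * phs X a e c y)) • ((tau * a ^ 2 * X.th a) • X.Rv c))
      ((innerSL ℝ (X.qv a c)).smulRight (X.dirv a (al x) (fun c => Real.cos (phs X a e c x)) c)
        + ((((e * Real.sin (phs X a e c x)) • al' x).smulRight
            (a • (-(X.ν c) + X.th a • X.Bp c))
          + ((e / 2 * al x * Real.sin (2 * phs X a e c x)) • al' x).smulRight
            ((tau * a ^ 2 * X.th a) • X.Rv c)))) x := by
  have hp := Cd_phs X a e c x
  have h1 : HasFDerivAt (fun y => e * al y * Real.sin (phs X a e c y))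
      ((e * al x) • (Real.cos (phs X a e c x) • ((1 / e) • innerSL ℝ (X.qv a c)))
        + Real.sin (phs X a e c x) • (e • al' x)) x := ((hal x).const_mul e).mul hp.sin
  have h2 : HasFDerivAt (fun y => e / 4 * al y ^ 2 * Real.sin (2 * phs X a e c y))
      ((e / 4 * al x ^ 2) • (Real.cos (2 * phs X a e c x) •
          ((2 : ℝ) • ((1 / e) • innerSL ℝ (X.qv a c))))
        + Real.sin (2 * phs X a e c x) • ((e / 4) • ((2 * al x) • al' x))) x := by
    have h3 : HasFDerivAt (fun y => al y ^ 2) ((2 * al x) • al' x) x := by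
      have h := (hal x).pow 2
      have e2 : ((2 : ℕ) • al x ^ (2 - 1)) • al' x = (2 * al x) • al' x := by
        congr 1
        simp
      rw [e2] at h
      exact h
    exact (h3.const_mul (e / 4)).mul (hp.const_mul 2).sin
  have h4 := (h1.smul_const (a • (-(X.ν c) + X.th a • X.Bp c))).add
    (h2.smul_const ((tau * a ^ 2 * X.th a) • X.Rv c))
  refine h4.congr_fderiv ?_
  ext u
  simp only [add_apply, ContinuousLinearMap.smulRight_apply,
    smul_apply, smul_eq_mul, innerSL_apply_apply, Pk.dirv, zc,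
    Real.cos_two_mul]
  have he' : e ≠ 0 := he.ne'
  generalize (⟪X.qv a c, u⟫ : ℝ) = q
  generalize al' x u = r
  generalize Real.sin (2 * phs X a e c x) = s2
  generalize Real.sin (phs X a e c x) = s1
  generalize Real.cos (phs X a e c x) = c1
  have e1 : e * al x * (c1 * (1 / e * q)) + s1 * (e * r) = q * (al x * c1) + e * s1 * r := by
    field_simp
  have e3 : e / 4 * al x ^ 2 * ((2 * c1 ^ 2 - 1) * (2 * (1 / e * q))) + s2 * (e / 4 * (2 * al x * r))
      = q * (-(al x ^ 2 / 2 - (al x * c1) ^ 2)) + e / 2 * al x * s2 * r := by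
    field_simp
    ring
  rw [e1, e3]
  module

theorem V1_hasFDerivAt (X : Pk H) (a : ℝ) {e : ℝ} (he : 0 < e) (al : H → ℝ) (al' : H → H →L[ℝ] ℝ)
    (hal : ∀ x, HasFDerivAt al (al' x) x) (x : H) :
    HasFDerivAt (V1 X a e al)
      (X.Np a (al x) (fun c => Real.cos (phs X a e c x)) + Er1 X a e al al' x) x := by
  unfold Pk.Np Er1
  rw [← Finset.sum_add_distrib]
  have h := HasFDerivAt.fun_sum (u := (Finset.univ : Finset (Fin X.n → Bool)))
    (fun c _ => Cd_one X a he al al' hal x c)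
  exact h

theorem V1_norm (X : Pk H) (a : ℝ) {e : ℝ} (he : 0 < e) (al : H → ℝ)
    (h01 : ∀ x, 0 ≤ al x ∧ al x ≤ 1) (x : H) : ‖V1 X a e al x‖ ≤ e * C0 X a := by
  unfold V1 C0
  rw [Finset.mul_sum]
  refine (norm_sum_le _ _).trans (Finset.sum_le_sum fun c _ => ?_)
  have h0 := (h01 x).1
  have h1 := (h01 x).2
  have s1 : |e * al x * Real.sin (phs X a e c x)| ≤ e := by
    rw [abs_mul, abs_mul, abs_of_pos he, abs_of_nonneg h0]
    have hs := Real.abs_sin_le_one (phs X a e c x)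
    have hs0 := abs_nonneg (Real.sin (phs X a e c x))
    calc e * al x * |Real.sin (phs X a e c x)| ≤ e * 1 * 1 := by gcongr
      _ = e := by ring
  have s2 : |e / 4 * al x ^ 2 * Real.sin (2 * phs X a e c x)| ≤ e := by
    rw [abs_mul, abs_mul, abs_of_pos (by positivity : 0 < e / 4), abs_of_nonneg (by positivity)]
    have hs := Real.abs_sin_le_one (2 * phs X a e c x)
    have hs0 := abs_nonneg (Real.sin (2 * phs X a e c x))
    have ha2 : al x ^ 2 ≤ 1 := pow_le_one₀ h0 h1
    calc e / 4 * al x ^ 2 * |Real.sin (2 * phs X a e c x)| ≤ e / 4 * 1 * 1 := by gcongr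
      _ ≤ e := by linarith
  calc ‖(e * al x * Real.sin (phs X a e c x)) • (a • (-(X.ν c) + X.th a • X.Bp c))
      + (e / 4 * al x ^ 2 * Real.sin (2 * phs X a e c x)) • ((tau * a ^ 2 * X.th a) • X.Rv c)‖
      ≤ ‖(e * al x * Real.sin (phs X a e c x)) • (a • (-(X.ν c) + X.th a • X.Bp c))‖
        + ‖(e / 4 * al x ^ 2 * Real.sin (2 * phs X a e c x)) •
            ((tau * a ^ 2 * X.th a) • X.Rv c)‖ := norm_add_le _ _
    _ = |e * al x * Real.sin (phs X a e c x)| * ‖a • (-(X.ν c) + X.th a • X.Bp c)‖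
        + |e / 4 * al x ^ 2 * Real.sin (2 * phs X a e c x)| *
            ‖(tau * a ^ 2 * X.th a) • X.Rv c‖ := by
          rw [norm_smul, norm_smul _ ((tau * a ^ 2 * X.th a) • X.Rv c), Real.norm_eq_abs,
            Real.norm_eq_abs]
    _ ≤ e * ‖a • (-(X.ν c) + X.th a • X.Bp c)‖ + e * ‖(tau * a ^ 2 * X.th a) • X.Rv c‖ :=
          add_le_add (mul_le_mul_of_nonneg_right s1 (norm_nonneg _))
            (mul_le_mul_of_nonneg_right s2 (norm_nonneg _))
    _ = e * (‖a • (-(X.ν c) + X.th a • X.Bp c)‖ + ‖(tau * a ^ 2 * X.th a) • X.Rv c‖) := by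
          ring

theorem V1_zero (X : Pk H) (a e : ℝ) (al : H → ℝ) (x : H) (h : al x = 0) : V1 X a e al x = 0 := by
  unfold V1
  apply Finset.sum_eq_zero
  intro c _
  rw [h]
  simp

theorem Er1_norm (X : Pk H) (a : ℝ) {e C : ℝ} (he : 0 < e) (al : H → ℝ) (al' : H → H →L[ℝ] ℝ)
    (h01 : ∀ x, 0 ≤ al x ∧ al x ≤ 1) (hC : ∀ x, ‖al' x‖ ≤ C) (x : H) :
    ‖Er1 X a e al al' x‖ ≤ e * C * C0 X a := by
  unfold Er1 C0
  rw [Finset.mul_sum]
  refine (norm_sum_le _ _).trans (Finset.sum_le_sum fun c _ => ?_)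
  have h0 := (h01 x).1
  have h1 := (h01 x).2
  have hCx := hC x
  have hn := norm_nonneg (al' x)
  have hC0 : 0 ≤ C := hn.trans hCx
  have s1 : ‖(e * Real.sin (phs X a e c x)) • al' x‖ ≤ e * C := by
    rw [norm_smul, Real.norm_eq_abs, abs_mul, abs_of_pos he]
    have hs := Real.abs_sin_le_one (phs X a e c x)
    have hs0 := abs_nonneg (Real.sin (phs X a e c x))
    calc e * |Real.sin (phs X a e c x)| * ‖al' x‖ ≤ e * 1 * C := by gcongr
      _ = e * C := by ring
  have s2 : ‖(e / 2 * al x * Real.sin (2 * phs X a e c x)) • al' x‖ ≤ e * C := by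
    rw [norm_smul, Real.norm_eq_abs, abs_mul, abs_mul, abs_of_pos (by positivity : 0 < e / 2),
      abs_of_nonneg h0]
    have hs := Real.abs_sin_le_one (2 * phs X a e c x)
    have hs0 := abs_nonneg (Real.sin (2 * phs X a e c x))
    calc e / 2 * al x * |Real.sin (2 * phs X a e c x)| * ‖al' x‖ ≤ e / 2 * 1 * 1 * C := by gcongr
      _ ≤ e * C := by
          have : 0 ≤ e * C := mul_nonneg he.le hC0
          linarith
  refine (norm_add_le _ _).trans ?_
  rw [ContinuousLinearMap.norm_smulRight_apply, ContinuousLinearMap.norm_smulRight_apply, mul_add]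
  exact add_le_add (mul_le_mul_of_nonneg_right s1 (norm_nonneg _))
    (mul_le_mul_of_nonneg_right s2 (norm_nonneg _))

theorem Er1_zero (X : Pk H) (a e : ℝ) (al : H → ℝ) (al' : H → H →L[ℝ] ℝ) (x : H)
    (h : al' x = 0) : Er1 X a e al al' x = 0 := by
  unfold Er1
  apply Finset.sum_eq_zero
  intro c _
  rw [h]
  ext u
  simp

theorem Er1_continuous (X : Pk H) (a e : ℝ) (al : H → ℝ) (al' : H → H →L[ℝ] ℝ)
    (hal : Continuous al) (hal' : Continuous al') : Continuous (Er1 X a e al al') := by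
  unfold Er1
  refine continuous_finsetSum _ fun c _ => ?_
  have hp := Cd_phs_cont X a e c
  have hs1 : Continuous fun x => (e * Real.sin (phs X a e c x)) • al' x :=
    (continuous_const.mul (Real.continuous_sin.comp hp)).smul hal'
  have hs2 : Continuous fun x => (e / 2 * al x * Real.sin (2 * phs X a e c x)) • al' x :=
    ((continuous_const.mul hal).mul
      (Real.continuous_sin.comp (continuous_const.mul hp))).smul hal'
  have hR : ∀ v : H, Continuous fun φ : H →L[ℝ] ℝ => φ.smulRight v := by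
    intro v
    have h := ((ContinuousLinearMap.smulRightL ℝ H H).flip v).continuous
    refine h.congr fun φ => ?_
    rfl
  exact ((hR _).comp hs1).add ((hR _).comp hs2)

theorem Cd_smulRight_compact (φ : H →L[ℝ] ℝ) (v : H) : IsCompactOperator (φ.smulRight v) := by
  have h1 : IsCompactOperator φ := isCompactOperator_of_locallyCompactSpace_dom φ
  exact h1.clm_comp ((ContinuousLinearMap.id ℝ ℝ).smulRight v)

theorem Cd_sum_compact {ι : Type*} (s : Finset ι) (f : ι → H →L[ℝ] H)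
    (h : ∀ i ∈ s, IsCompactOperator (f i)) : IsCompactOperator (∑ i ∈ s, f i : H →L[ℝ] H) := by
  classical
  induction s using Finset.induction_on with
  | empty => simpa using isCompactOperator_zero
  | insert i s hi ih =>
    rw [Finset.sum_insert hi]
    exact (h i (by simp)).add (ih fun j hj => h j (by simp [hj]))

theorem Er1_compact (X : Pk H) (a e : ℝ) (al : H → ℝ) (al' : H → H →L[ℝ] ℝ) (x : H) :
    IsCompactOperator (Er1 X a e al al' x) := by
  unfold Er1
  refine Cd_sum_compact _ _ fun c _ => ?_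
  exact (Cd_smulRight_compact _ _).add (Cd_smulRight_compact _ _)

end

end QC49
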