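import Pool.Agent.Lib.MP_49c203_an.C.Cd

set_option autoImplicit false

namespace QC49

noncomputable section

open scoped RealInnerProductSpace
open Filter Topology

variable {H : Type*} [NormedAddCommGroup H] [InnerProductSpace ℝ H]

theorem al'_zero (al : H → ℝ) (al' : H →L[ℝ] ℝ) (x : H) (hal : HasFDerivAt al al' x)
    (h0 : ∀ y, 0 ≤ al y) (hx : al x = 0) : al' = 0 := by
  have h : IsLocalMin al x := by
    refine Filter.Eventually.of_forall fun y => ?_
    rw [hx]; exact h0 y
  exact h.hasFDerivAt_eq_zero hal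

theorem Fpx_exists (X : Pk H) (a : ℝ) {e C : ℝ} (he : 0 < e) (al : H → ℝ) (al' : H → H →L[ℝ] ℝ)
    (h01 : ∀ x, 0 ≤ al x ∧ al x ≤ 1) (hal : ∀ x, HasFDerivAt al (al' x) x)
    (hal' : Continuous al') (hC : ∀ x, ‖al' x‖ ≤ C) :
    ∃ (Fd : H → H →L[ℝ] ℝ) (B : ℝ),
      (∀ x, HasFDerivAt (fun x => X.Fp a (al x) (fun c => Real.cos (phs X a e c x))) (Fd x) x) ∧
      Continuous Fd ∧ (∀ x, ‖Fd x‖ ≤ B) ∧
      (∀ x, |X.Fp a (al x) (fun c => Real.cos (phs X a e c x))| ≤ B) ∧
      (∀ x, al x = 0 → Fd x = 0) ∧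
      ∀ x, al x = 0 → X.Fp a (al x) (fun c => Real.cos (phs X a e c x)) = 0 := by
  have hC0 : 0 ≤ C := (norm_nonneg _).trans (hC 0)
  have hcal : Continuous al := continuous_iff_continuousAt.2 fun x => (hal x).continuousAt
  have hphs : ∀ c x, HasFDerivAt (phs X a e c) (e⁻¹ • innerSL ℝ (X.qv a c)) x := by
    intro c x
    have h1 : phs X a e c = fun x => (e⁻¹ • innerSL ℝ (X.qv a c)) x := by
      funext x
      simp [phs, div_eq_inv_mul]
    rw [h1]
    exact (e⁻¹ • innerSL ℝ (X.qv a c)).hasFDerivAt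
  have hcphs : ∀ c, Continuous (phs X a e c) := fun c =>
    continuous_iff_continuousAt.2 fun x => (hphs c x).continuousAt
  set g : (Fin X.n → Bool) → H → H →L[ℝ] ℝ := fun c x =>
    al x • (-Real.sin (phs X a e c x) • (e⁻¹ • innerSL ℝ (X.qv a c)))
      + Real.cos (phs X a e c x) • al' x with hg
  have hg1 : ∀ c x, HasFDerivAt (fun x => al x * Real.cos (phs X a e c x)) (g c x) x := by
    intro c x
    exact (hal x).mul (hphs c x).cos
  have hgc : ∀ c, Continuous (g c) := by
    intro c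
    refine ((hcal.smul ?_).add ?_)
    · exact ((Real.continuous_sin.comp (hcphs c)).neg.smul continuous_const)
    · exact (Real.continuous_cos.comp (hcphs c)).smul hal'
  have hgn : ∀ c x, ‖g c x‖ ≤ ‖e⁻¹ • innerSL ℝ (X.qv a c)‖ + C := by
    intro c x
    refine (norm_add_le _ _).trans (add_le_add ?_ ?_)
    · rw [norm_smul, norm_smul, Real.norm_eq_abs, Real.norm_eq_abs, abs_neg,
        abs_of_nonneg (h01 x).1]
      have h1 := Real.abs_sin_le_one (phs X a e c x)
      have h2 := norm_nonneg (e⁻¹ • innerSL ℝ (X.qv a c))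
      have h3 := (h01 x).1
      have h4 := (h01 x).2
      have h5 := abs_nonneg (Real.sin (phs X a e c x))
      calc al x * (|Real.sin (phs X a e c x)| * ‖e⁻¹ • innerSL ℝ (X.qv a c)‖)
          ≤ 1 * (1 * ‖e⁻¹ • innerSL ℝ (X.qv a c)‖) := by
            refine mul_le_mul h4 (mul_le_mul_of_nonneg_right h1 h2) (by positivity) (by norm_num)
        _ = _ := by ring
    · rw [norm_smul, Real.norm_eq_abs]
      have h1 := Real.abs_cos_le_one (phs X a e c x)
      calc |Real.cos (phs X a e c x)| * ‖al' x‖ ≤ 1 * C :=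
            mul_le_mul h1 (hC x) (norm_nonneg _) (by norm_num)
        _ = C := one_mul C
  have hu : ∀ c x, |al x * Real.cos (phs X a e c x)| ≤ 1 := by
    intro c x
    rw [abs_mul, abs_of_nonneg (h01 x).1]
    calc al x * |Real.cos (phs X a e c x)| ≤ 1 * 1 :=
          mul_le_mul (h01 x).2 (Real.abs_cos_le_one _) (abs_nonneg _) (by norm_num)
      _ = 1 := one_mul 1
  set N : ℝ := (2 : ℝ) ^ X.n with hN
  have hN0 : 0 < N := by positivity
  set Fd : H → H →L[ℝ] ℝ := fun x =>
    X.s • (N⁻¹ • ∑ c, g c x)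
      + (1 / 2 * a * X.s) • (N⁻¹ • ∑ c, ((2 : ℕ) • (al x * Real.cos (phs X a e c x)) ^ (2 - 1)) • g c x) with hFd
  set B1 : ℝ := ∑ c, (‖e⁻¹ • innerSL ℝ (X.qv a c)‖ + C) with hB1
  have hB10 : 0 ≤ B1 := Finset.sum_nonneg fun c _ => add_nonneg (norm_nonneg _) hC0
  have hN1 : N⁻¹ ≤ 1 := by
    apply inv_le_one_of_one_le₀
    exact one_le_pow₀ (by norm_num)
  have havg : ∀ (t : (Fin X.n → Bool) → ℝ), (∀ c, |t c| ≤ 1) → |avg t| ≤ 1 := by
    intro t ht
    unfold avg
    rw [abs_div, abs_of_pos hN0, div_le_one hN0]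
    refine (Finset.abs_sum_le_sum_abs _ _).trans ?_
    calc ∑ c, |t c| ≤ ∑ _c : Fin X.n → Bool, (1 : ℝ) := Finset.sum_le_sum fun c _ => ht c
      _ = N := by simp [hN]
  refine ⟨Fd, |X.s| * B1 + |1 / 2 * a * X.s| * (2 * B1) + (|X.s| + |1 / 2 * a * X.s|), ?_, ?_, ?_, ?_,
    ?_, ?_⟩
  · intro x
    have h1 : HasFDerivAt (fun x => avg (fun c => al x * Real.cos (phs X a e c x)))
        (N⁻¹ • ∑ c, g c x) x := by
      unfold avg
      have := (HasFDerivAt.fun_sum (u := Finset.univ) fun c _ => hg1 c x).const_mul N⁻¹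
      refine this.congr_of_eventuallyEq (Filter.Eventually.of_forall fun y => ?_)
      simp only [div_eq_inv_mul]; rfl
    have h2 : HasFDerivAt (fun x => avg (fun c => (al x * Real.cos (phs X a e c x)) ^ 2))
        (N⁻¹ • ∑ c, ((2 : ℕ) • (al x * Real.cos (phs X a e c x)) ^ (2 - 1)) • g c x) x := by
      unfold avg
      have := (HasFDerivAt.fun_sum (u := Finset.univ) fun c _ => (hg1 c x).pow 2).const_mul N⁻¹
      refine this.congr_of_eventuallyEq (Filter.Eventually.of_forall fun y => ?_)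
      simp only [div_eq_inv_mul]; rfl
    have h3 := (h1.const_mul X.s).add (h2.const_mul (1 / 2 * a * X.s))
    exact h3
  · have e1 : Continuous fun x => ∑ c, g c x := continuous_finsetSum _ fun c _ => hgc c
    have e2 : Continuous fun x =>
        ∑ c, ((2 : ℕ) • (al x * Real.cos (phs X a e c x)) ^ (2 - 1)) • g c x := by
      refine continuous_finsetSum _ fun c _ => ?_
      have e4 : Continuous fun x => Real.cos (phs X a e c x) := Real.continuous_cos.comp (hcphs c)
      have e3 : Continuous fun x => (2 : ℕ) • (al x * Real.cos (phs X a e c x)) ^ (2 - 1) := by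
        fun_prop
      exact e3.smul (hgc c)
    exact ((e1.const_smul N⁻¹).const_smul X.s).add ((e2.const_smul N⁻¹).const_smul (1 / 2 * a * X.s))
  · intro x
    have h1 : ‖∑ c, g c x‖ ≤ B1 := (norm_sum_le _ _).trans (Finset.sum_le_sum fun c _ => hgn c x)
    have h2 : ‖∑ c, ((2 : ℕ) • (al x * Real.cos (phs X a e c x)) ^ (2 - 1)) • g c x‖ ≤ 2 * B1 := by
      refine (norm_sum_le _ _).trans ?_
      rw [hB1, Finset.mul_sum]
      refine Finset.sum_le_sum fun c _ => ?_
      rw [norm_smul]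
      refine mul_le_mul ?_ (hgn c x) (norm_nonneg _) (by norm_num)
      simp only [Nat.add_one_sub_one, pow_one, nsmul_eq_mul, Nat.cast_ofNat]
      rw [Real.norm_eq_abs, abs_mul, abs_of_pos (by norm_num : (0 : ℝ) < 2)]
      have := hu c x
      linarith
    have h3 : ‖Fd x‖ ≤ |X.s| * B1 + |1 / 2 * a * X.s| * (2 * B1) := by
      refine (norm_add_le _ _).trans (add_le_add ?_ ?_)
      · rw [norm_smul, norm_smul, Real.norm_eq_abs, Real.norm_eq_abs, abs_of_pos (inv_pos.2 hN0)]
        refine mul_le_mul_of_nonneg_left ?_ (abs_nonneg _)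
        calc N⁻¹ * ‖∑ c, g c x‖ ≤ 1 * B1 := mul_le_mul hN1 h1 (norm_nonneg _) (by norm_num)
          _ = B1 := one_mul _
      · rw [norm_smul, norm_smul, Real.norm_eq_abs, Real.norm_eq_abs, abs_of_pos (inv_pos.2 hN0)]
        refine mul_le_mul_of_nonneg_left ?_ (abs_nonneg _)
        calc N⁻¹ * _ ≤ 1 * (2 * B1) := mul_le_mul hN1 h2 (norm_nonneg _) (by norm_num)
          _ = 2 * B1 := one_mul _
    have h4 := abs_nonneg X.s
    have h5 := abs_nonneg (1 / 2 * a * X.s)
    linarith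
  · intro x
    have h1 := havg (fun c => al x * Real.cos (phs X a e c x)) fun c => hu c x
    have h2 := havg (fun c => (al x * Real.cos (phs X a e c x)) ^ 2) fun c => by
      rw [abs_pow]; exact pow_le_one₀ (abs_nonneg _) (hu c x)
    unfold Pk.Fp
    refine (abs_add_le _ _).trans ?_
    rw [abs_mul, abs_mul (1 / 2 * a * X.s)]
    have h4 := abs_nonneg X.s
    have h5 := abs_nonneg (1 / 2 * a * X.s)
    have h6 := mul_le_mul_of_nonneg_left h1 h4
    have h7 := mul_le_mul_of_nonneg_left h2 h5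
    have h8 : 0 ≤ |X.s| * B1 + |1 / 2 * a * X.s| * (2 * B1) := by positivity
    linarith
  · intro x hx
    have h1 := al'_zero al (al' x) x (hal x) (fun y => (h01 y).1) hx
    have h2 : ∀ c, g c x = 0 := by
      intro c
      simp [hg, hx, h1]
    simp [hFd, h2]
  · intro x hx
    simp [Pk.Fp, avg, hx]

end

end QC49
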