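import Pool.Agent.Lib.MP_49c203_an.C.Ce

/-! # row qc-Cf : existence of the package map

Choose `e > 0` with `e C0 ≤ δ/2`, `e C C0 ≤ δ/2` (`V1_norm`, `Er1_norm`), then `Fd, B` from `Fpx_exists`, then `ρ > 0` with `ρ B ≤ δ/2`, and `(g, Dg)` from
 `MP49c203.tail_map_rho b X.n ρ`.  `V x = V1 x + Fp(x) • g x`, `sl x c = cos (phs c x)`, `Dp = Dg`, `Er x = Er1 x + (Fd x).smulRight (g x)`.
 Derivative of `Fp • g` : `HasFDerivAt.smul`: `Fp x • Dg x + (Fd x).smulRight (g x)`.
 `Dg x (v i) = 0` : `v i = ∑_{l<n} ⟪b l, v i⟫ b l` (`hvb`: `⟪b l, v i⟫ = 0` for `l ≥ n`; e.g. `v i - cP b n (v i)` is orthogonal to all `b l`), similarly `⟪v i, Dg x u⟫ = 0`.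
-/

set_option autoImplicit false

namespace QC49

noncomputable section

open scoped RealInnerProductSpace
open Filter Topology

variable {H : Type*} [NormedAddCommGroup H] [InnerProductSpace ℝ H] [CompleteSpace H]

theorem eq_cP (b : HilbertBasis ℕ ℝ H) {n : ℕ} {v : H} (hv : ∀ l, n ≤ l → ⟪b l, v⟫ = 0) :
    v = MP49c203.cP b n v := by
  have h : ∀ l, ⟪b l, v - MP49c203.cP b n v⟫ = 0 := by
    intro l
    rw [inner_sub_right, MP49c203.cP_apply, MP49c203.inner_b_sum]
    by_cases hl : l < n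
    · rw [if_pos (Finset.mem_range.2 hl), sub_self]
    · rw [if_neg (by simpa using hl), hv l (not_lt.1 hl), sub_self]
  have h2 : v - MP49c203.cP b n v = 0 := by
    apply b.repr.injective
    ext l
    rw [b.repr_apply_apply, h l]
    simp
  exact sub_eq_zero.1 h2

theorem pmap_exists (b : HilbertBasis ℕ ℝ H) (X : Pk H) (a : ℝ)
    (hvb : ∀ i l, X.n ≤ l → ⟪b l, X.v i⟫ = 0) {al : H → ℝ} (hal : MP49c203.Nice al) {δ : ℝ}
    (hδ : 0 < δ) : Nonempty (PMap X a al δ) := by
  have halc : Continuous al := hal.continuous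
  obtain ⟨h01, al', C, h1, h2, h3⟩ := hal
  have hCn : 0 ≤ C := (norm_nonneg _).trans (h3 0)
  have hC0 : 0 ≤ C0 X a := by
    unfold C0
    positivity
  -- choice of `e`
  obtain ⟨e, he, he1, he2⟩ : ∃ e : ℝ, 0 < e ∧ e * C0 X a ≤ δ / 2 ∧ e * C * C0 X a ≤ δ / 2 := by
    refine ⟨δ / (2 * (C0 X a + C * C0 X a + 1)), by positivity, ?_, ?_⟩
    · have h4 : 0 < 2 * (C0 X a + C * C0 X a + 1) := by positivity
      rw [div_mul_eq_mul_div, div_le_iff₀ h4]
      nlinarith [mul_nonneg hCn hC0, mul_nonneg hδ.le (mul_nonneg hCn hC0)]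
    · have h4 : 0 < 2 * (C0 X a + C * C0 X a + 1) := by positivity
      rw [div_mul_eq_mul_div, div_mul_eq_mul_div, div_le_iff₀ h4]
      nlinarith [mul_nonneg hδ.le hC0]
  obtain ⟨Fd, B, hF1, hF2, hF3, hF4, hF5, hF6⟩ := Fpx_exists X a he al al' h01 h1 h2 h3
  have hB : 0 ≤ B := (norm_nonneg _).trans (hF3 0)
  obtain ⟨ρ, hρ, hρB⟩ : ∃ ρ : ℝ, 0 < ρ ∧ ρ * B ≤ δ / 2 := by
    refine ⟨δ / (2 * (B + 1)), by positivity, ?_⟩
    have h4 : 0 < 2 * (B + 1) := by positivity
    rw [div_mul_eq_mul_div, div_le_iff₀ h4]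
    nlinarith
  obtain ⟨g, Dg, g1, g2, g3, g4, g5, g6, g7⟩ := MP49c203.tail_map_rho b X.n hρ
  have hv : ∀ i, X.v i = MP49c203.cP b X.n (X.v i) := fun i => eq_cP b (hvb i)
  have hD0 : ∀ x i, Dg x (X.v i) = 0 := by
    intro x i
    rw [hv i, MP49c203.cP_apply, map_sum]
    exact Finset.sum_eq_zero fun l hl => by
      rw [map_smul, g5 x l (Finset.mem_range.1 hl), smul_zero]
  have hD1 : ∀ x i u, ⟪X.v i, Dg x u⟫ = 0 := by
    intro x i u
    rw [hv i, MP49c203.cP_apply, sum_inner]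
    exact Finset.sum_eq_zero fun l hl => by
      rw [real_inner_smul_left, g6 x l (Finset.mem_range.1 hl), mul_zero]
  have hgc : Continuous g := continuous_iff_continuousAt.2 fun x => (g1 x).continuousAt
  have hal0 : ∀ x, al x = 0 → al' x = 0 := fun x hx =>
    al'_zero al (al' x) x (h1 x) (fun y => (h01 y).1) hx
  refine ⟨{
    V := fun x => V1 X a e al x
      + X.Fp a (al x) (fun c => Real.cos (phs X a e c x)) • g x
    sl := fun x c => Real.cos (phs X a e c x)
    Dp := Dg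
    Er := fun x => Er1 X a e al al' x + (Fd x).smulRight (g x)
    hV := ?_
    hV0 := ?_
    hVn := ?_
    hsl := ?_
    hslc := ?_
    hDpn := g4
    hDpc := g2
    hDp1 := hD0
    hDp2 := hD1
    hDpk := g7
    hErn := ?_
    hErc := ?_
    hErk := ?_
    hEr0 := ?_ }⟩
  · intro x
    have h5 := (V1_hasFDerivAt X a he al al' h1 x).add ((hF1 x).smul (g1 x))
    refine h5.congr_fderiv ?_
    abel
  · intro x hx
    show V1 X a e al x + X.Fp a (al x) (fun c => Real.cos (phs X a e c x)) • g x = 0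
    rw [V1_zero X a e al x hx, hF6 x hx, zero_smul, add_zero]
  · intro x
    show ‖V1 X a e al x + X.Fp a (al x) (fun c => Real.cos (phs X a e c x)) • g x‖ ≤ δ
    have h5 := V1_norm X a he al h01 x
    have h6 : ‖X.Fp a (al x) (fun c => Real.cos (phs X a e c x)) • g x‖ ≤ δ / 2 := by
      rw [norm_smul, Real.norm_eq_abs]
      have h7 := mul_le_mul (hF4 x) (g3 x) (norm_nonneg _) hB
      linarith [mul_comm B ρ]
    have h8 := norm_add_le (V1 X a e al x)
      (X.Fp a (al x) (fun c => Real.cos (phs X a e c x)) • g x)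
    linarith
  · intro x c
    exact Real.abs_cos_le_one _
  · intro c
    show Continuous fun x => Real.cos (phs X a e c x)
    unfold phs
    fun_prop
  · intro x
    show ‖Er1 X a e al al' x + (Fd x).smulRight (g x)‖ ≤ δ
    have h5 := Er1_norm X a he al al' h01 h3 x
    have h6 : ‖(Fd x).smulRight (g x)‖ ≤ δ / 2 := by
      rw [ContinuousLinearMap.norm_smulRight_apply]
      have h7 := mul_le_mul (hF3 x) (g3 x) (norm_nonneg _) hB
      linarith [mul_comm B ρ]
    have h8 := norm_add_le (Er1 X a e al al' x) ((Fd x).smulRight (g x))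
    linarith
  · have h5 := Er1_continuous X a e al al' halc h2
    refine h5.add ?_
    exact (ContinuousLinearMap.smulRightL ℝ H H).continuous₂.comp (hF2.prodMk hgc)
  · intro x
    exact (Er1_compact X a e al al' x).add (MP49c203.isCompactOperator_smulRight _ _)
  · intro x hx
    show Er1 X a e al al' x + (Fd x).smulRight (g x) = 0
    rw [Er1_zero X a e al al' x (hal0 x hx), hF5 x hx]
    ext u
    simp

end

end QC49
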