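import Pool.Agent.Lib.MP_49c203_an.C.Cb
import Pool.Agent.Lib.MP_49c203_an.C.Cc
import Pool.Agent.Lib.MP_49c203_an.C.Cf

/-! # row qc-Cg : existence of the assembly data

`K x` compact symmetric, `‖K x‖ ≤ 1/8`; `ρ` from `radius2`.
1. `MP49c203.weighted_partition (fun x => ρ x / 2)` : centres `xc`, functions `al`, weights `s`.  `b` gives second countability: `secondCountable_of_basis`
   (the span of the countable set `range b` is dense: `HilbertBasis.dense_span`; `TopologicalSpace.IsSeparable`).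
2. for every `p` `spectral_approx b (K (xc p))` with `δ = η/4`: `n p, v p, k p` (choice).  `|k| ≤ 1/8 ≤ 1/7`.
3. `fresh n` : `idx`.  `X p := ⟨n p, v p, k p, fun c => b (idx p c), a^3/10^4 * s p⟩`.
4. `δ p := min (ρ (xc p) / 2^(p+2)) (η / 2^(p+1)) > 0`, `M p` from `pmap_exists`.
5. `hKx` : `al p x ≠ 0` gives `‖x - xc p‖ < ρ(xc p)/2`, so `‖K x - K (xc p)‖ ≤ η/4`; `‖y-x‖ ≤ ρ x` gives `‖K y - K x‖ ≤ η/4`; and `‖K(xc p)u - Kp u‖ ≤ η/4‖u‖`
   (`Kp u = ∑ k i • ⟪v i,u⟫ • v i`, unfold `Pk.Kp`).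
6. `hδ` : `ρ (xc p) ≤ ρ x + ‖xc p - x‖ ≤ ρ x + ρ(xc p)/2`, so `ρ(xc p) ≤ 2 ρ x`, `δ p ≤ ρ(xc p)/2^(p+2) ≤ ρ x/2^(p+1)`.
-/

set_option autoImplicit false

namespace QC49

noncomputable section

open scoped RealInnerProductSpace
open Filter Topology

variable {H : Type*} [NormedAddCommGroup H] [InnerProductSpace ℝ H] [CompleteSpace H]

theorem secondCountable_of_basis (b : HilbertBasis ℕ ℝ H) : SecondCountableTopology H := by
  have h1 : TopologicalSpace.IsSeparable (Set.range b) := (Set.countable_range b).isSeparable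
  have h2 : TopologicalSpace.IsSeparable (Submodule.span ℝ (Set.range b) : Set H) := h1.span
  have h3 : closure (Submodule.span ℝ (Set.range b) : Set H) = Set.univ := by
    rw [← Submodule.topologicalClosure_coe, b.dense_span, Submodule.top_coe]
  have h4 : TopologicalSpace.IsSeparable (Set.univ : Set H) := by
    rw [← h3]; exact h2.closure
  have : TopologicalSpace.SeparableSpace H := TopologicalSpace.isSeparable_univ_iff.1 h4
  exact UniformSpace.secondCountable_of_separable H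

theorem asm_exists (b : HilbertBasis ℕ ℝ H) (K : H → H →L[ℝ] H)
    (hKs : ∀ x u v, ⟪K x u, v⟫ = ⟪u, K x v⟫) (hKk : ∀ x, IsCompactOperator (K x))
    (hKn : ∀ x, ‖K x‖ ≤ 1 / 8) {a η : ℝ} (ha : 0 < a) (hη : 0 < η) (ρ : H → ℝ)
    (hρ : ∀ x, 0 < ρ x) (hρL : ∀ x y, ρ x ≤ ρ y + ‖x - y‖)
    (hρK : ∀ x y, ‖y - x‖ ≤ ρ x → ‖K y - K x‖ ≤ η / 4) : Nonempty (Asm b K a η ρ) := by
  have := secondCountable_of_basis b
  obtain ⟨xc, al, s, hs, hal, hsup, hlf, hS1, hS2⟩ :=
    MP49c203.weighted_partition (fun x => ρ x / 2) fun x => half_pos (hρ x)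
  have hη4 : 0 < η / 4 := by positivity
  choose n v k hv hk hvb hKap using fun p : ℕ =>
    spectral_approx b (hKk (xc p)) (hKs (xc p)) hη4
  obtain ⟨idx, hi1, hi2, hi3⟩ := fresh n
  have hw : 0 < a ^ 3 / 10 ^ 4 := by positivity
  let X : ℕ → Pk H := fun p => ⟨n p, v p, k p, fun c => b (idx p c), a ^ 3 / 10 ^ 4 * s p⟩
  let δ : ℕ → ℝ := fun p => min (ρ (xc p) / 2 ^ (p + 2)) (η / 2 ^ (p + 1))
  have hδ0 : ∀ p, 0 < δ p := fun p => by
    refine lt_min ?_ ?_
    · have := hρ (xc p)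
      positivity
    · positivity
  have hM : ∀ p, Nonempty (PMap (X p) a (al p) (δ p)) := fun p =>
    pmap_exists b (X p) a (fun i l hl => hvb p i l hl) (hal p) (hδ0 p)
  let M : ∀ p, PMap (X p) a (al p) (δ p) := fun p => (hM p).some
  have hsup' : ∀ p x, al p x ≠ 0 → ‖x - xc p‖ < ρ (xc p) / 2 := fun p x h => hsup p x h
  have hKp : ∀ p u, (X p).Kp u = ∑ i, k p i • ⟪v p i, u⟫ • v p i := by
    intro p u
    simp only [Pk.Kp, sum_apply, smul_apply,
      ContinuousLinearMap.smulRight_apply, innerSL_apply_apply]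
    rfl
  refine ⟨{
    al := al
    X := X
    δ := δ
    M := M
    hal := fun p x => (hal p).1 x
    halc := fun p => (hal p).continuous
    hlf := hlf
    hs := fun p => mul_pos hw (hs p)
    hS1 := fun x N => ?_
    hS2 := fun x => ?_
    hv := hv
    hk := fun p i => ((hk p i).trans (hKn (xc p))).trans (by norm_num)
    hvb := hvb
    idx := idx
    hidx := fun p c => rfl
    hidx1 := hi1
    hidx2 := hi2
    hidx3 := hi3
    hKx := fun p x hx y hy u => ?_
    hδ0 := fun p => (hδ0 p).le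
    hδ := fun p x hx => ?_
    hδ' := fun p => min_le_right _ _ }⟩
  · have h1 : ∑ p ∈ Finset.range N, (X p).s * al p x =
        a ^ 3 / 10 ^ 4 * ∑ p ∈ Finset.range N, s p * al p x := by
      rw [Finset.mul_sum]
      exact Finset.sum_congr rfl fun p _ => by simp only [X]; ring
    rw [h1]
    have h2 := mul_le_mul_of_nonneg_left (hS1 x N) hw.le
    linarith
  · obtain ⟨N, hN⟩ := hS2 x
    refine ⟨N, fun M hM => ?_⟩
    have h1 : ∑ p ∈ Finset.range M, (X p).s * al p x ^ 2 =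
        a ^ 3 / 10 ^ 4 * ∑ p ∈ Finset.range M, s p * al p x ^ 2 := by
      rw [Finset.mul_sum]
      exact Finset.sum_congr rfl fun p _ => by simp only [X]; ring
    rw [h1]
    have h2 := mul_le_mul_of_nonneg_left (hN M hM) hw.le
    linarith
  · have h1 := hρK x y hy
    have h2 : ‖K x - K (xc p)‖ ≤ η / 4 := by
      refine hρK (xc p) x ?_
      have := hsup' p x hx
      have := hρ (xc p)
      linarith
    have h3 : ‖K (xc p) u - (X p).Kp u‖ ≤ η / 4 * ‖u‖ := by
      rw [hKp]; exact hKap p u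
    have h4 : ‖(K y - K x) u‖ ≤ η / 4 * ‖u‖ := (ContinuousLinearMap.le_opNorm _ _).trans
      (mul_le_mul_of_nonneg_right h1 (norm_nonneg _))
    have h5 : ‖(K x - K (xc p)) u‖ ≤ η / 4 * ‖u‖ := (ContinuousLinearMap.le_opNorm _ _).trans
      (mul_le_mul_of_nonneg_right h2 (norm_nonneg _))
    have h6 : K y u - (X p).Kp u = (K y - K x) u + (K x - K (xc p)) u
        + (K (xc p) u - (X p).Kp u) := by
      simp only [sub_apply]
      abel
    rw [h6]
    have h7 : 0 ≤ η * ‖u‖ := by positivity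
    calc ‖(K y - K x) u + (K x - K (xc p)) u + (K (xc p) u - (X p).Kp u)‖
        ≤ ‖(K y - K x) u‖ + ‖(K x - K (xc p)) u‖ + ‖K (xc p) u - (X p).Kp u‖ :=
          norm_add₃_le
      _ ≤ η / 4 * ‖u‖ + η / 4 * ‖u‖ + η / 4 * ‖u‖ := by gcongr
      _ ≤ η * ‖u‖ := by linarith
  · have h1 := hsup' p x hx
    have h2 := hρL (xc p) x
    rw [norm_sub_rev] at h2
    have h3 : ρ (xc p) ≤ 2 * ρ x := by linarith
    refine (min_le_left _ _).trans ?_
    rw [div_le_div_iff₀ (by positivity) (by positivity), pow_succ 2 (p + 1)]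
    have h4 : (0 : ℝ) < 2 ^ (p + 1) := by positivity
    nlinarith [mul_le_mul_of_nonneg_right h3 h4.le]

end

end QC49
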