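import Pool.Agent.Lib.MP_49c203_an.C.Defs

/-! # row qc-Ch : locally finite sums

`lf_tsum` : `tsum_eq_sum`.
`lf_continuous` : near `x` the function equals `∑_{p<N} f p`, a finite sum of continuous functions (`ContinuousAt.congr`).
`lf_hasFDerivAt` : near `x`, `∑' p, f p y = ∑_{p<N} f p y` (`HasFDerivAt.congr_of_eventuallyEq`), and `f' p x = 0` for `p ≥ N` because `f p` vanishes near `x`
 (uniqueness of the derivative), so `∑' p, f' p x = ∑_{p<N} f' p x`.
-/

set_option autoImplicit false

namespace QC49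

noncomputable section

open scoped RealInnerProductSpace
open Filter Topology

variable {E F : Type*} [NormedAddCommGroup E] [NormedSpace ℝ E] [NormedAddCommGroup F]
  [NormedSpace ℝ F]

theorem lf_tsum (f : ℕ → F) (N : ℕ) (h : ∀ p, N ≤ p → f p = 0) :
    ∑' p, f p = ∑ p ∈ Finset.range N, f p := by
  refine tsum_eq_sum ?_
  intro p hp
  exact h p (by simpa using hp)

theorem lf_continuous (f : ℕ → E → F) (hf : ∀ p, Continuous (f p))
    (hl : ∀ x, ∃ N, ∀ᶠ y in 𝓝 x, ∀ p, N ≤ p → f p y = 0) : Continuous fun x => ∑' p, f p x := by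
  rw [continuous_iff_continuousAt]
  intro x
  obtain ⟨N, hN⟩ := hl x
  have h1 : ContinuousAt (fun y => ∑ p ∈ Finset.range N, f p y) x :=
    (continuous_finsetSum _ (fun p _ => hf p)).continuousAt
  refine h1.congr ?_
  filter_upwards [hN] with y hy
  exact (lf_tsum (fun p => f p y) N hy).symm

theorem lf_hasFDerivAt (f : ℕ → E → F) (f' : ℕ → E → E →L[ℝ] F)
    (hf : ∀ p x, HasFDerivAt (f p) (f' p x) x)
    (hl : ∀ x, ∃ N, ∀ᶠ y in 𝓝 x, ∀ p, N ≤ p → f p y = 0) (x : E) :
    HasFDerivAt (fun x => ∑' p, f p x) (∑' p, f' p x) x := by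
  obtain ⟨N, hN⟩ := hl x
  have hz : ∀ p, N ≤ p → f' p x = 0 := by
    intro p hp
    have h0 : HasFDerivAt (fun _ : E => (0 : F)) (0 : E →L[ℝ] F) x := hasFDerivAt_const 0 x
    have h1 : f p =ᶠ[𝓝 x] fun _ : E => (0 : F) := by
      filter_upwards [hN] with y hy
      exact hy p hp
    exact (hf p x).unique (h0.congr_of_eventuallyEq h1)
  rw [lf_tsum (fun p => f' p x) N hz]
  have h1 : HasFDerivAt (fun y => ∑ p ∈ Finset.range N, f p y)
      (∑ p ∈ Finset.range N, f' p x) x := by
    have := HasFDerivAt.fun_sum (u := Finset.range N) (A := f) (A' := fun p => f' p x) (x := x)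
      (fun p _ => hf p x)
    exact this
  refine h1.congr_of_eventuallyEq ?_
  filter_upwards [hN] with y hy
  exact lf_tsum (fun p => f p y) N hy

end

end QC49
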