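import Pool.Agent.Lib.MP_49c203_an.C.Ch

/-! # row qc-Ci : the map `h` of an assembly

`act x` : the finite set of active packages, `A.hlf x` gives `N` with `al p x = 0` for `p ≥ N`; `act x := (range N).filter (al p x ≠ 0)`.
`Np_zero`, `Fp_zero` : for amplitude `0`: `dirv a 0 sl c = 0` (`zc 0 sl = 0`), so `Np = 0`; `Fp = 0`.
`DV_zero` : then `DV = 0` (`hEr0`), `V = 0` (`hV0`).
`sum_act` : `∑' p, f p = ∑ p ∈ act x, f p` if `f p = 0` whenever `al p x = 0`.
`h_hasFDerivAt` : `lf_hasFDerivAt` for `f p = (A.M p).V`, `f' = DV`.  `Dh_continuous`, `F_continuous` : `lf_continuous`; `DV p` is continuous since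
 `al, sl, Dp, Er` are (`Np` is a finite sum `∑_c (innerSL (qv_c)).smulRight (dirv ..)`: continuous in `dirv`; e.g. `ContinuousLinearMap.smulRightL` or `continuous_const.clm_..`,
  or write `smulRight` as a continuous bilinear map).
`h_sub_le` : `‖∑_{act} V_p‖ ≤ ∑_{p ∈ act x} δ p ≤ ∑ ε x/2^(p+1) ≤ ε x`.
-/

set_option autoImplicit false

namespace QC49

noncomputable section

open scoped RealInnerProductSpace
open Filter Topology

variable {H : Type*} [NormedAddCommGroup H] [InnerProductSpace ℝ H] [CompleteSpace H]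

theorem dirv_zero (X : Pk H) (a : ℝ) (sl : (Fin X.n → Bool) → ℝ) (c : Fin X.n → Bool) :
    X.dirv a 0 sl c = 0 := by
  simp [Pk.dirv, zc]

theorem Np_zero (X : Pk H) (a : ℝ) (sl : (Fin X.n → Bool) → ℝ) : X.Np a 0 sl = 0 := by
  unfold Pk.Np
  refine Finset.sum_eq_zero fun c _ => ?_
  rw [dirv_zero, ContinuousLinearMap.smulRight_zero]

theorem Fp_zero (X : Pk H) (a : ℝ) (sl : (Fin X.n → Bool) → ℝ) : X.Fp a 0 sl = 0 := by
  simp [Pk.Fp, avg]

theorem sum_half_pow_le (s : Finset ℕ) : ∑ p ∈ s, (1 : ℝ) / 2 ^ (p + 1) ≤ 1 := by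
  have h := hasSum_geometric_two' (1 : ℝ)
  have h1 : (fun n : ℕ => (1 : ℝ) / 2 / 2 ^ n) = fun n : ℕ => (1 : ℝ) / 2 ^ (n + 1) := by
    funext n
    rw [pow_succ, div_div, mul_comm]
  rw [h1] at h
  exact sum_le_hasSum s (fun i _ => by positivity) h

namespace Asm

variable {b : HilbertBasis ℕ ℝ H} {K : H → H →L[ℝ] H} {a η : ℝ} {ε : H → ℝ}
  (A : Asm b K a η ε)

theorem exists_act (x : H) : ∃ s : Finset ℕ, ∀ p, p ∈ s ↔ A.al p x ≠ 0 := by
  classical
  obtain ⟨N, hN⟩ := A.hlf x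
  have hN' := hN.self_of_nhds
  refine ⟨(Finset.range N).filter fun p => A.al p x ≠ 0, fun p => ?_⟩
  rw [Finset.mem_filter, Finset.mem_range]
  constructor
  · exact fun h => h.2
  · intro h
    refine ⟨?_, h⟩
    by_contra hp
    exact h (hN' p (not_lt.1 hp))

/-- active packages -/
def act (x : H) : Finset ℕ := (A.exists_act x).choose

theorem mem_act {x : H} {p : ℕ} : p ∈ A.act x ↔ A.al p x ≠ 0 := (A.exists_act x).choose_spec p

theorem sum_act {F : Type*} [NormedAddCommGroup F] (x : H) (f : ℕ → F)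
    (hf : ∀ p, A.al p x = 0 → f p = 0) : ∑' p, f p = ∑ p ∈ A.act x, f p := by
  refine tsum_eq_sum fun p hp => hf p ?_
  by_contra h
  exact hp (A.mem_act.2 h)

theorem DV_zero {p : ℕ} {x : H} (h : A.al p x = 0) : A.DV p x = 0 := by
  unfold DV
  rw [(A.M p).hEr0 x h, h, Np_zero, Fp_zero, zero_smul, add_zero, add_zero]

theorem h_eq (x : H) : A.h x = x + ∑ p ∈ A.act x, (A.M p).V x := by
  unfold h
  rw [A.sum_act x _ fun p hp => (A.M p).hV0 x hp]

theorem Dh_eq (x : H) : A.Dh x = 1 + ∑ p ∈ A.act x, A.DV p x := by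
  unfold Dh
  rw [A.sum_act x _ fun p hp => A.DV_zero hp]

theorem F_eq (x : H) :
    A.F x = ∑ p ∈ A.act x, (A.X p).Fp a (A.al p x) ((A.M p).sl x) := by
  unfold F
  rw [A.sum_act x _ fun p hp => by rw [hp, Fp_zero]]

theorem h_hasFDerivAt (x : H) : HasFDerivAt A.h (A.Dh x) x := by
  have h1 := lf_hasFDerivAt (fun p y => (A.M p).V y) (fun p y => A.DV p y) (fun p y => (A.M p).hV y)
    (fun y => ?_) x
  · exact (hasFDerivAt_id x).add h1
  · obtain ⟨N, hN⟩ := A.hlf y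
    exact ⟨N, hN.mono fun z hz p hp => (A.M p).hV0 z (hz p hp)⟩

theorem Ci_Fp_continuous (p : ℕ) : Continuous fun x => (A.X p).Fp a (A.al p x) ((A.M p).sl x) := by
  have h1 := A.halc p
  have h2 := (A.M p).hslc
  unfold Pk.Fp avg
  have e1 : Continuous fun x => (∑ c, A.al p x * (A.M p).sl x c) / 2 ^ (A.X p).n :=
    (continuous_finset_sum _ fun c _ => h1.mul (h2 c)).div_const _
  have e2 : Continuous fun x => (∑ c, (A.al p x * (A.M p).sl x c) ^ 2) / 2 ^ (A.X p).n :=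
    (continuous_finset_sum _ fun c _ => (h1.mul (h2 c)).pow 2).div_const _
  exact (continuous_const.mul e1).add (continuous_const.mul e2)

theorem DV_continuous (p : ℕ) : Continuous (A.DV p) := by
  have hF := A.Ci_Fp_continuous p
  have hN : Continuous fun x => (A.X p).Np a (A.al p x) ((A.M p).sl x) := by
    unfold Pk.Np
    refine continuous_finset_sum _ fun c _ => ?_
    have hd : Continuous fun x => (A.X p).dirv a (A.al p x) ((A.M p).sl x) c := by
      have h1 := A.halc p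
      have h2 := (A.M p).hslc c
      unfold Pk.dirv zc
      fun_prop
    exact (ContinuousLinearMap.smulRightL ℝ H H (innerSL ℝ ((A.X p).qv a c))).continuous.comp hd
  exact (hN.add (hF.smul (A.M p).hDpc)).add (A.M p).hErc

theorem Dh_continuous : Continuous A.Dh := by
  refine continuous_const.add (lf_continuous (fun p y => A.DV p y) (fun p => A.DV_continuous p) fun y => ?_)
  obtain ⟨N, hN⟩ := A.hlf y
  exact ⟨N, hN.mono fun z hz p hp => A.DV_zero (hz p hp)⟩

theorem F_continuous : Continuous A.F := by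
  refine lf_continuous (fun p y => (A.X p).Fp a (A.al p y) ((A.M p).sl y)) (fun p => A.Ci_Fp_continuous p)
    fun y => ?_
  obtain ⟨N, hN⟩ := A.hlf y
  exact ⟨N, hN.mono fun z hz p hp => by rw [hz p hp, Fp_zero]⟩

theorem h_sub_le (hε : ∀ x, 0 ≤ ε x) (x : H) : ‖A.h x - x‖ ≤ ε x := by
  rw [A.h_eq, add_sub_cancel_left]
  calc ‖∑ p ∈ A.act x, (A.M p).V x‖ ≤ ∑ p ∈ A.act x, ‖(A.M p).V x‖ := norm_sum_le _ _
    _ ≤ ∑ p ∈ A.act x, ε x * (1 / 2 ^ (p + 1)) := by
        refine Finset.sum_le_sum fun p hp => ?_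
        refine ((A.M p).hVn x).trans ((A.hδ p x (A.mem_act.1 hp)).trans (le_of_eq ?_))
        rw [mul_one_div]
    _ = ε x * ∑ p ∈ A.act x, (1 : ℝ) / 2 ^ (p + 1) := by rw [Finset.mul_sum]
    _ ≤ ε x * 1 := mul_le_mul_of_nonneg_left (sum_half_pow_le _) (hε x)
    _ = ε x := mul_one _

theorem sum_Er_le (hη : 0 ≤ η) (x : H) : ‖∑ p ∈ A.act x, (A.M p).Er x‖ ≤ η := by
  calc ‖∑ p ∈ A.act x, (A.M p).Er x‖ ≤ ∑ p ∈ A.act x, ‖(A.M p).Er x‖ := norm_sum_le _ _
    _ ≤ ∑ p ∈ A.act x, η * (1 / 2 ^ (p + 1)) := by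
        refine Finset.sum_le_sum fun p hp => ?_
        refine ((A.M p).hErn x).trans ((A.hδ' p).trans (le_of_eq ?_))
        rw [mul_one_div]
    _ = η * ∑ p ∈ A.act x, (1 : ℝ) / 2 ^ (p + 1) := by rw [Finset.mul_sum]
    _ ≤ η * 1 := mul_le_mul_of_nonneg_left (sum_half_pow_le _) hη
    _ = η := mul_one _

end Asm

end

end QC49
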