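import Pool.Agent.Lib.MP_49c203_an.C.Ci
import Pool.Agent.Lib.MP_49c203_an.C.Cc

/-! # row qc-Cj : compactness, symmetry and continuity of `K'`

`Np_compact` : finite sum of `smulRight`.
`Dh_compact` : `Dh x - (1+F x)•1 = ∑_{act}(Np + Fp•(Dp-1) + Er)` (`Dh_eq`, `F_eq`): finite sum of compact operators.
`K'_compact` : with `D = Dh x = t•1 + C`, `t = 1+F x ≠ 0`, `C` compact, `L = K (h x)` compact: `D^*(1+L)D - t²•1 = t•C + C^*... `: expand
 `D^*(1+L)D = D^*D + D^*LD`, `D^*D = t²•1 + t•C + t•C^* + C^*C`; each term except `t²•1` is compact (`adjoint_compact`, `IsCompactOperator.clm_comp/comp_clm`, `add`, `smul`).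
 `K' = t⁻²(D^*(1+L)D - t²•1)`.
`K'_symm` : `⟪D^*(1+L)D u, v⟫ = ⟪(1+L)Du, Dv⟫ = ⟪Du,(1+L)Dv⟫`.
`K'_form` : `‖Du‖² + ⟪L Du, Du⟫ = ⟪D^*(1+L)Du,u⟫ = t²(‖u‖²+⟪K'u,u⟫)`.
`K'_continuous` : composition of continuous maps; `ContinuousLinearMap.adjoint` is continuous (isometry), `(1+F)^2 ≠ 0`, `h` continuous (differentiable).
-/

set_option autoImplicit false

namespace QC49

noncomputable section

open scoped RealInnerProductSpace
open Filter Topology

variable {H : Type*} [NormedAddCommGroup H] [InnerProductSpace ℝ H] [CompleteSpace H]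

theorem Np_compact (X : Pk H) (a al : ℝ) (sl : (Fin X.n → Bool) → ℝ) :
    IsCompactOperator (X.Np a al sl) := by
  unfold Pk.Np
  exact MP49c203.isCompactOperator_sum _ _ fun _ _ => MP49c203.isCompactOperator_smulRight _ _

/-- compact plus compact, as continuous linear maps -/
theorem Cj_add {S T : H →L[ℝ] H} (hS : IsCompactOperator S) (hT : IsCompactOperator T) :
    IsCompactOperator (S + T : H →L[ℝ] H) := hS.add hT

theorem Cj_smul {S : H →L[ℝ] H} (hS : IsCompactOperator S) (c : ℝ) :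
    IsCompactOperator (c • S : H →L[ℝ] H) := hS.smul c

theorem Cj_comp_left {S : H →L[ℝ] H} (hS : IsCompactOperator S) (T : H →L[ℝ] H) :
    IsCompactOperator (T.comp S : H →L[ℝ] H) := hS.clm_comp T

theorem Cj_comp_right {S : H →L[ℝ] H} (hS : IsCompactOperator S) (T : H →L[ℝ] H) :
    IsCompactOperator (S.comp T : H →L[ℝ] H) := hS.comp_clm T

namespace Asm

variable {b : HilbertBasis ℕ ℝ H} {K : H → H →L[ℝ] H} {a η : ℝ} {ε : H → ℝ}
  (A : Asm b K a η ε)

theorem Dh_compact (x : H) :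
    IsCompactOperator (A.Dh x - (1 + A.F x) • (1 : H →L[ℝ] H) : H →L[ℝ] H) := by
  have h1 : A.Dh x - (1 + A.F x) • (1 : H →L[ℝ] H) = ∑ p ∈ A.act x,
      ((A.X p).Np a (A.al p x) ((A.M p).sl x)
        + (A.X p).Fp a (A.al p x) ((A.M p).sl x) • ((A.M p).Dp x - 1) + (A.M p).Er x) := by
    have h2 : ∀ p ∈ A.act x, (A.X p).Np a (A.al p x) ((A.M p).sl x)
        + (A.X p).Fp a (A.al p x) ((A.M p).sl x) • ((A.M p).Dp x - 1) + (A.M p).Er x
        = A.DV p x - (A.X p).Fp a (A.al p x) ((A.M p).sl x) • (1 : H →L[ℝ] H) := by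
      intro p _
      unfold DV
      rw [smul_sub]
      abel
    rw [Finset.sum_congr rfl h2, Finset.sum_sub_distrib, ← Finset.sum_smul, A.Dh_eq, A.F_eq,
      add_smul, one_smul]
    abel
  rw [h1]
  exact MP49c203.isCompactOperator_sum _ _ fun p _ =>
    Cj_add (Cj_add (Np_compact _ _ _ _) (Cj_smul ((A.M p).hDpk x) _)) ((A.M p).hErk x)

theorem Cj_apply (x u : H) : A.K' x u = ((1 + A.F x) ^ 2)⁻¹ •
    ContinuousLinearMap.adjoint (A.Dh x) (A.Dh x u + K (A.h x) (A.Dh x u)) - u := rfl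

theorem K'_compact (x : H) (hKk : ∀ x, IsCompactOperator (K x)) (hF : 1 + A.F x ≠ 0) :
    IsCompactOperator (A.K' x) := by
  set t : ℝ := 1 + A.F x with ht
  set C : H →L[ℝ] H := A.Dh x - t • (1 : H →L[ℝ] H) with hC
  have hCc : IsCompactOperator C := A.Dh_compact x
  have hDu : ∀ u, A.Dh x u = t • u + C u := by
    intro u
    rw [hC]
    show A.Dh x u = t • u + (A.Dh x u - t • u)
    abel
  have hDa : ∀ u, ContinuousLinearMap.adjoint (A.Dh x) u
      = t • u + ContinuousLinearMap.adjoint C u := by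
    intro u
    refine ext_inner_right ℝ fun v => ?_
    rw [ContinuousLinearMap.adjoint_inner_left, inner_add_left,
      ContinuousLinearMap.adjoint_inner_left, hDu, inner_add_right, real_inner_smul_left,
      real_inner_smul_right]
  have h1 : A.K' x = (t ^ 2)⁻¹ • ((ContinuousLinearMap.adjoint (A.Dh x)).comp
      ((K (A.h x)).comp (A.Dh x)) + (t • ContinuousLinearMap.adjoint C
        + (ContinuousLinearMap.adjoint (A.Dh x)).comp C)) := by
    ext1 u
    rw [A.Cj_apply]
    show (t ^ 2)⁻¹ • ContinuousLinearMap.adjoint (A.Dh x) (A.Dh x u + K (A.h x) (A.Dh x u)) - u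
      = (t ^ 2)⁻¹ • (ContinuousLinearMap.adjoint (A.Dh x) (K (A.h x) (A.Dh x u))
        + (t • ContinuousLinearMap.adjoint C u + ContinuousLinearMap.adjoint (A.Dh x) (C u)))
    have h2 : ContinuousLinearMap.adjoint (A.Dh x) (A.Dh x u)
        = t ^ 2 • u + (t • ContinuousLinearMap.adjoint C u
          + ContinuousLinearMap.adjoint (A.Dh x) (C u)) := by
      conv_lhs => rw [hDu u, map_add, map_smul, hDa u, smul_add, smul_smul, ← sq]
      abel
    rw [map_add, h2, smul_add, smul_add, smul_smul, inv_mul_cancel₀ (pow_ne_zero 2 hF), one_smul,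
      smul_add (t ^ 2)⁻¹ (ContinuousLinearMap.adjoint (A.Dh x) (K (A.h x) (A.Dh x u)))]
    abel
  rw [h1]
  exact Cj_smul (Cj_add (Cj_comp_left (Cj_comp_right (hKk _) _) _)
    (Cj_add (Cj_smul (adjoint_compact hCc) _) (Cj_comp_left hCc _))) _

theorem K'_symm (hKs : ∀ x u v, ⟪K x u, v⟫ = ⟪u, K x v⟫) (x u v : H) :
    ⟪A.K' x u, v⟫ = ⟪u, A.K' x v⟫ := by
  rw [A.Cj_apply, A.Cj_apply, inner_sub_left, inner_sub_right, real_inner_smul_left,
    real_inner_smul_right, ContinuousLinearMap.adjoint_inner_left,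
    ContinuousLinearMap.adjoint_inner_right, inner_add_left, inner_add_right, hKs]

theorem K'_form (x u : H) (hF : 1 + A.F x ≠ 0) :
    ‖A.Dh x u‖ ^ 2 + ⟪K (A.h x) (A.Dh x u), A.Dh x u⟫
      = (1 + A.F x) ^ 2 * (‖u‖ ^ 2 + ⟪A.K' x u, u⟫) := by
  rw [A.Cj_apply, inner_sub_left, real_inner_smul_left, ContinuousLinearMap.adjoint_inner_left,
    inner_add_left, real_inner_self_eq_norm_sq, real_inner_self_eq_norm_sq]
  have h2 : (1 + A.F x) ^ 2 ≠ 0 := pow_ne_zero 2 hF
  field_simp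
  ring

theorem K'_continuous (hK : Continuous K) (hF : ∀ x, 1 + A.F x ≠ 0) : Continuous A.K' := by
  have hh : Continuous A.h :=
    continuous_iff_continuousAt.2 fun x => (A.h_hasFDerivAt x).continuousAt
  have hD := A.Dh_continuous
  have hadj : Continuous fun x => ContinuousLinearMap.adjoint (A.Dh x) :=
    (ContinuousLinearMap.adjoint (𝕜 := ℝ) (E := H) (F := H)).continuous.comp hD
  have hFc : Continuous fun x => ((1 + A.F x) ^ 2)⁻¹ :=
    ((continuous_const.add A.F_continuous).pow 2).inv₀ fun x => pow_ne_zero 2 (hF x)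
  have h1 : Continuous fun x => (1 + K (A.h x) : H →L[ℝ] H) :=
    continuous_const.add (hK.comp hh)
  exact (hFc.smul (hadj.clm_comp (h1.clm_comp hD))).sub continuous_const

end Asm

end

end QC49
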