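import Pool.Agent.Lib.MP_49c203_an.C.Ci
import Pool.Agent.Lib.MP_49c203_an.B.De
import Pool.Agent.Lib.MP_49c203_an.B.Bs

/-! # row qc-Ck : the data `PD` of the pointwise lemma at a point `x`

`hν1` : `ν c = b (idx p c)`, `b.orthonormal.comp _ (hidx2 p)`.  `hν2` : `b.orthonormal.2 (hidx3 ..)`.  `hνv` : `⟪b (idx p c), v i⟫ = 0` (`hvb`, `hidx1` with `j = p`).
`hal` : `al ≥ 0`, `≠ 0`.  `hKp` : `A.hKx p x _ (A.h x) (h_sub_le)`.
`hKZ` : if `act x` is empty both sides are `0`; else `p0 = min' (act x)`; `Kp_{p0}` kills every `ν_{p,c}`, `p ∈ act x` (`Kp u = ∑ k_i ⟪v_i,u⟫ v_i`,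
 `⟪v_{p0,i}, b (idx p c)⟫ = 0` because `(X p0).n ≤ idx p c`, `p0 ≤ p`), so `‖K z‖ = ‖K z - Kp z‖ ≤ η‖z‖`.
`hS1`, `hS2` : sums over `act x` equal the sums over `range N` for `N` large (terms with `al p x = 0` vanish).
`pd_Y` : unfold `PD.Y`, `Dh_eq`, `DV`.  `pd_FF` : `F_eq`.
`pd_K'` : `K'_form`-type identity: `D.K' u = (‖Dh u‖²+⟪K(h x) Dh u, Dh u⟫)/(1+F)² - ‖u‖²`.
`pd_dist` : `Y_sub_le`: `‖Dh x u - u‖ ≤ 2a‖u‖`.  `pd_F` : `FF_small`.
`pot_step` : `D.pointwise`.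
-/

set_option autoImplicit false

namespace QC49

noncomputable section

open scoped RealInnerProductSpace
open Filter Topology

variable {H : Type*} [NormedAddCommGroup H] [InnerProductSpace ℝ H] [CompleteSpace H]

namespace Asm

variable {b : HilbertBasis ℕ ℝ H} {K : H → H →L[ℝ] H} {a η : ℝ} {ε : H → ℝ}
  (A : Asm b K a η ε)

theorem Ck_aux_exists_sum (x : H) : ∃ N, ∀ M ≥ N, ∀ f : ℕ → ℝ, (∀ p, A.al p x = 0 → f p = 0) →
    ∑ p ∈ Finset.range M, f p = ∑ p ∈ A.act x, f p := by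
  refine ⟨(A.act x).sup id + 1, fun M hM f hf => ?_⟩
  symm
  apply Finset.sum_subset
  · intro p hp
    have h1 : p ≤ (A.act x).sup id := Finset.le_sup (f := id) hp
    exact Finset.mem_range.2 (by omega)
  · intro p _ hp
    apply hf
    by_contra h
    exact hp (A.mem_act.2 h)

theorem Ck_aux_Kp_nu {p q : ℕ} (hpq : p ≤ q) (c : Fin (A.X q).n → Bool) :
    (A.X p).Kp ((A.X q).ν c) = 0 := by
  unfold Pk.Kp
  rw [ContinuousLinearMap.sum_apply]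
  apply Finset.sum_eq_zero
  intro i _
  have h1 : ⟪(A.X p).v i, (A.X q).ν c⟫ = 0 := by
    rw [A.hidx q c, real_inner_comm]
    exact A.hvb p i _ (A.hidx1 q c p hpq)
  simp [h1]

theorem Ck_aux_KZ (x : H) (hε : ∀ x, 0 ≤ ε x)
    (t : ∀ p, (Fin (A.X p).n → Bool) → ℝ) :
    ‖K (A.h x) (∑ p ∈ A.act x, ∑ c, t p c • (A.X p).ν c)‖
      ≤ η * ‖∑ p ∈ A.act x, ∑ c, t p c • (A.X p).ν c‖ := by
  by_cases hne : (A.act x).Nonempty
  · set p0 := (A.act x).min' hne with hp0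
    have hmem : p0 ∈ A.act x := Finset.min'_mem _ _
    have hz : (A.X p0).Kp (∑ p ∈ A.act x, ∑ c, t p c • (A.X p).ν c) = 0 := by
      rw [map_sum]
      apply Finset.sum_eq_zero
      intro q hq
      rw [map_sum]
      apply Finset.sum_eq_zero
      intro c _
      rw [map_smul, A.Ck_aux_Kp_nu (Finset.min'_le _ _ hq) c, smul_zero]
    have h := A.hKx p0 x (A.mem_act.1 hmem) (A.h x) (A.h_sub_le hε x)
      (∑ p ∈ A.act x, ∑ c, t p c • (A.X p).ν c)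
    rwa [hz, sub_zero] at h
  · rw [Finset.not_nonempty_iff_eq_empty] at hne
    simp [hne]

/-- the data at `x` -/
def pd (ha : 0 < a) (ha' : a ≤ 1 / 1000) (hη : 0 ≤ η) (hη' : η ≤ a ^ 3 / 10 ^ 6)
    (hε : ∀ x, 0 ≤ ε x) (hKs : ∀ x u v, ⟪K x u, v⟫ = ⟪u, K x v⟫) (hKn : ∀ x, ‖K x‖ ≤ 1 / 8)
    (x : H) : PD H where
  a := a
  η := η
  J := A.act x
  X := A.X
  al := fun p => A.al p x
  sl := fun p => (A.M p).sl x
  Dp := fun p => (A.M p).Dp x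
  Er := ∑ p ∈ A.act x, (A.M p).Er x
  K := K (A.h x)
  ha := ha
  ha' := ha'
  hη := hη
  hη' := hη'
  hv := fun p _ => A.hv p
  hk := fun p _ => A.hk p
  hν1 := fun p _ => by
    have h1 : (A.X p).ν = fun c => b (A.idx p c) := funext (A.hidx p)
    rw [h1]
    exact b.orthonormal.comp _ (A.hidx2 p)
  hν2 := fun p _ p' _ hpp c c' => by
    rw [A.hidx p c, A.hidx p' c']
    exact b.orthonormal.2 (A.hidx3 p p' c c' hpp)
  hνv := fun p _ c i => by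
    rw [A.hidx p c]
    exact A.hvb p i _ (A.hidx1 p c p le_rfl)
  hs := fun p _ => A.hs p
  hal := fun p hp => lt_of_le_of_ne (A.hal p x).1 (Ne.symm (A.mem_act.1 hp))
  hal' := fun p _ => (A.hal p x).2
  hsl := fun p _ c => (A.M p).hsl x c
  hD1 := fun p _ => (A.M p).hDpn x
  hD2 := fun p _ i => (A.M p).hDp1 x i
  hD3 := fun p _ i u => (A.M p).hDp2 x i u
  hEr := A.sum_Er_le hη x
  hKs := hKs _
  hKn := (hKn _).trans (by norm_num)
  hKp := fun p hp u => A.hKx p x (A.mem_act.1 hp) (A.h x) (A.h_sub_le hε x) u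
  hKZ := A.Ck_aux_KZ x hε
  hS1 := by
    obtain ⟨N, hN⟩ := A.Ck_aux_exists_sum x
    have h1 := hN N le_rfl (fun p => (A.X p).s * A.al p x) (fun p hp => by simp [hp])
    have h2 := A.hS1 x N
    rw [h1] at h2
    exact h2
  hS2 := by
    obtain ⟨N, hN⟩ := A.Ck_aux_exists_sum x
    obtain ⟨N', hN'⟩ := A.hS2 x
    have h1 := hN (max N N') (le_max_left _ _) (fun p => (A.X p).s * A.al p x ^ 2)
      (fun p hp => by simp [hp])
    have h2 := hN' (max N N') (le_max_right _ _)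
    rw [h1] at h2
    exact h2

variable (ha : 0 < a) (ha' : a ≤ 1 / 1000) (hη : 0 ≤ η) (hη' : η ≤ a ^ 3 / 10 ^ 6)
    (hε : ∀ x, 0 ≤ ε x) (hKs : ∀ x u v, ⟪K x u, v⟫ = ⟪u, K x v⟫) (hKn : ∀ x, ‖K x‖ ≤ 1 / 8)

theorem pd_Y (x u : H) : (A.pd ha ha' hη hη' hε hKs hKn x).Y u = A.Dh x u := by
  rw [A.Dh_eq]
  unfold PD.Y
  simp only [pd, DV, ContinuousLinearMap.add_apply, ContinuousLinearMap.sum_apply,
    ContinuousLinearMap.one_apply, Finset.sum_add_distrib, ContinuousLinearMap.smul_apply, PD.Fq]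
  abel

theorem pd_FF (x : H) : (A.pd ha ha' hη hη' hε hKs hKn x).FF = A.F x := by
  rw [A.F_eq]
  rfl

include ha ha' hη hη' hε hKs hKn in
theorem F_small (x : H) : |A.F x| ≤ 1 / 10 ^ 6 := by
  rw [← A.pd_FF ha ha' hη hη' hε hKs hKn x]
  exact PD.FF_small _

include ha ha' hη hη' hε hKs hKn in
theorem Dh_dist (x u : H) : ‖A.Dh x u - u‖ ≤ 2 * a * ‖u‖ := by
  rw [← A.pd_Y ha ha' hη hη' hε hKs hKn x u]
  exact PD.Y_sub_le (A.pd ha ha' hη hη' hε hKs hKn x) u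

include ha ha' hη hη' hε hKs hKn in
theorem pot_step (x : H) {w Φ : ℝ} (hw : 1000 * a ≤ w) (hP : Pot (qf (K (A.h x))) w Φ) :
    Pot (fun u => (‖A.Dh x u‖ ^ 2 + ⟪K (A.h x) (A.Dh x u), A.Dh x u⟫) / (1 + A.F x) ^ 2 - ‖u‖ ^ 2)
      (w + 10 * η) ((1 - a * (a ^ 3 / 10 ^ 4) / 128) * Φ + 132 * (a ^ 3 / 10 ^ 4) ^ 2) := by
  have h := PD.pointwise (A.pd ha ha' hη hη' hε hKs hKn x) hw hP
  have e : (A.pd ha ha' hη hη' hε hKs hKn x).K' = fun u =>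
      (‖A.Dh x u‖ ^ 2 + ⟪K (A.h x) (A.Dh x u), A.Dh x u⟫) / (1 + A.F x) ^ 2 - ‖u‖ ^ 2 := by
    funext u
    unfold PD.K'
    rw [A.pd_Y ha ha' hη hη' hε hKs hKn x u, A.pd_FF ha ha' hη hη' hε hKs hKn x]
    rfl
  rw [e] at h
  exact h

end Asm

end

end QC49
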