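import Pool.Agent.Lib.MP_49c203_an.C.Cg
import Pool.Agent.Lib.MP_49c203_an.C.Cj
import Pool.Agent.Lib.MP_49c203_an.C.Ck

/-! # row qc-Cl : THE CORE THEOREM

`b` : a Hilbert basis of `HH` indexed by `ℕ`: `HilbertBasis.ofRepr (LinearIsometryEquiv.refl ℝ HH)`.
`radius2 K hK ε hε hε0 hη` gives `ρ ≤ ε`; `asm_exists` gives `A : Asm b K a η ρ`.  Outputs `A.h, A.Dh, A.F, A.K'`:
`h_hasFDerivAt`, `Dh_continuous`, `‖Dh x - 1‖ ≤ 3a` by `Dh_dist` (`opNorm_le_bound`), `h_sub_le` + `ρ ≤ ε`, `F_continuous`, `F_small`, `K'_continuous`, `K'_symm`, `K'_compact`,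
`K'_form` (all with `1 + F ≠ 0` from `F_small`), and the last clause from `pot_step`, because
`qf (K' x) u = (‖Dh u‖²+⟪K(h x)Dh u,Dh u⟫)/(1+F)² - ‖u‖²` by `K'_form`.
-/

set_option autoImplicit false

namespace QC49

noncomputable section

open scoped RealInnerProductSpace
open Filter Topology

theorem core : CoreStatement := by
  intro K hK hKs hKk hKn a η ha ha' hη hη' ε hε hε0
  obtain ⟨ρ, hρ0, hρL, hρε, hρK⟩ := radius2 K hK ε hε hε0 hη
  have b : HilbertBasis ℕ ℝ HH := HilbertBasis.ofRepr (LinearIsometryEquiv.refl ℝ HH)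
  obtain ⟨A⟩ := asm_exists b K hKs hKk hKn ha hη ρ hρ0 hρL hρK
  have hρ0' : ∀ x, 0 ≤ ρ x := fun x => (hρ0 x).le
  have hFs : ∀ x, |A.F x| ≤ 1 / 10 ^ 6 := fun x => A.F_small ha ha' hη.le hη' hρ0' hKs hKn x
  have hF0 : ∀ x, 1 + A.F x ≠ 0 := by
    intro x
    have h1 := (abs_le.1 (hFs x)).1
    have h2 : (0 : ℝ) < 1 + A.F x := by
      norm_num at h1 ⊢
      linarith
    exact h2.ne'
  refine ⟨A.h, A.Dh, A.F, A.K', A.h_hasFDerivAt, A.Dh_continuous, ?_, ?_, A.F_continuous, ?_,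
    A.K'_continuous hK hF0, A.K'_symm hKs, fun x => A.K'_compact x hKk (hF0 x),
    fun x u => A.K'_form x u (hF0 x), ?_⟩
  · intro x
    refine ContinuousLinearMap.opNorm_le_bound _ (by linarith) fun u => ?_
    have h1 := A.Dh_dist ha ha' hη.le hη' hρ0' hKs hKn x u
    have h2 : 0 ≤ a * ‖u‖ := mul_nonneg ha.le (norm_nonneg u)
    show ‖A.Dh x u - u‖ ≤ 3 * a * ‖u‖
    linarith
  · exact fun x => (A.h_sub_le hρ0' x).trans (hρε x)
  · exact fun x => (hFs x).trans (by norm_num)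
  · intro x w Φ hw hΦ hP
    have h1 := A.pot_step ha ha' hη.le hη' hρ0' hKs hKn x hw hP
    have h2 : (fun u => (‖A.Dh x u‖ ^ 2 + ⟪K (A.h x) (A.Dh x u), A.Dh x u⟫) / (1 + A.F x) ^ 2
        - ‖u‖ ^ 2) = qf (A.K' x) := by
      funext u
      rw [A.K'_form x u (hF0 x)]
      have h3 : (1 + A.F x) ^ 2 ≠ 0 := pow_ne_zero 2 (hF0 x)
      rw [mul_div_cancel_left₀ _ h3, add_sub_cancel_left]
      rfl
    rw [h2] at h1
    exact h1

end

end QC49
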