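import Pool.Agent.Lib.MP_49c203_an.Defs
import Pool.Agent.Lib.MP_49c203_an.Core
import Pool.Agent.Lib.MP_49c203_an.G.Tail
import Pool.Agent.Lib.MP_49c203_an.U.Part

/-! # section 6: definitions (package maps, assembly) -/

set_option autoImplicit false

namespace QC49

noncomputable section

open scoped RealInnerProductSpace
open Filter Topology

variable {H : Type*} [NormedAddCommGroup H] [InnerProductSpace ℝ H]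

/-- the map of one package, with all its properties -/
structure PMap (X : Pk H) (a : ℝ) (al : H → ℝ) (δ : ℝ) where
  V : H → H
  sl : H → (Fin X.n → Bool) → ℝ
  Dp : H → H →L[ℝ] H
  Er : H → H →L[ℝ] H
  hV : ∀ x, HasFDerivAt V (X.Np a (al x) (sl x) + X.Fp a (al x) (sl x) • Dp x + Er x) x
  hV0 : ∀ x, al x = 0 → V x = 0
  hVn : ∀ x, ‖V x‖ ≤ δ
  hsl : ∀ x c, |sl x c| ≤ 1
  hslc : ∀ c, Continuous fun x => sl x c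
  hDpn : ∀ x, ‖Dp x‖ ≤ 2
  hDpc : Continuous Dp
  hDp1 : ∀ x i, Dp x (X.v i) = 0
  hDp2 : ∀ x i u, ⟪X.v i, Dp x u⟫ = 0
  hDpk : ∀ x, IsCompactOperator (Dp x - 1 : H →L[ℝ] H)
  hErn : ∀ x, ‖Er x‖ ≤ δ
  hErc : Continuous Er
  hErk : ∀ x, IsCompactOperator (Er x)
  hEr0 : ∀ x, al x = 0 → Er x = 0

variable [CompleteSpace H]

/-- all the choices of section 6.  `ε` is the (1-Lipschitz) radius function. -/
structure Asm (b : HilbertBasis ℕ ℝ H) (K : H → H →L[ℝ] H) (a η : ℝ) (ε : H → ℝ) where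
  al : ℕ → H → ℝ
  X : ℕ → Pk H
  δ : ℕ → ℝ
  M : ∀ p, PMap (X p) a (al p) (δ p)
  hal : ∀ p x, 0 ≤ al p x ∧ al p x ≤ 1
  halc : ∀ p, Continuous (al p)
  hlf : ∀ x, ∃ N, ∀ᶠ y in 𝓝 x, ∀ p, N ≤ p → al p y = 0
  hs : ∀ p, 0 < (X p).s
  hS1 : ∀ x N, ∑ p ∈ Finset.range N, (X p).s * al p x ≤ 2 * (a ^ 3 / 10 ^ 4)
  hS2 : ∀ x, ∃ N, ∀ M ≥ N, a ^ 3 / 10 ^ 4 / 2 ≤ ∑ p ∈ Finset.range M, (X p).s * al p x ^ 2
  hv : ∀ p, Orthonormal ℝ (X p).v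
  hk : ∀ p i, |(X p).k i| ≤ 1 / 7
  hvb : ∀ p i l, (X p).n ≤ l → ⟪b l, (X p).v i⟫ = 0
  idx : ∀ p, (Fin (X p).n → Bool) → ℕ
  hidx : ∀ p c, (X p).ν c = b (idx p c)
  hidx1 : ∀ p c j, j ≤ p → (X j).n ≤ idx p c
  hidx2 : ∀ p, Function.Injective (idx p)
  hidx3 : ∀ p p' c c', p ≠ p' → idx p c ≠ idx p' c'
  hKx : ∀ p x, al p x ≠ 0 → ∀ y, ‖y - x‖ ≤ ε x → ∀ u, ‖K y u - (X p).Kp u‖ ≤ η * ‖u‖
  hδ0 : ∀ p, 0 ≤ δ p
  hδ : ∀ p x, al p x ≠ 0 → δ p ≤ ε x / 2 ^ (p + 1)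
  hδ' : ∀ p, δ p ≤ η / 2 ^ (p + 1)

namespace Asm

variable {b : HilbertBasis ℕ ℝ H} {K : H → H →L[ℝ] H} {a η : ℝ} {ε : H → ℝ}
  (A : Asm b K a η ε)

/-- derivative of the `p`-th map -/
def DV (p : ℕ) (x : H) : H →L[ℝ] H :=
  (A.X p).Np a (A.al p x) ((A.M p).sl x) + (A.X p).Fp a (A.al p x) ((A.M p).sl x) • (A.M p).Dp x
    + (A.M p).Er x

/-- `h = id + ∑ v_p` -/
def h (x : H) : H := x + ∑' p, (A.M p).V x

def Dh (x : H) : H →L[ℝ] H := 1 + ∑' p, A.DV p x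

def F (x : H) : ℝ := ∑' p, (A.X p).Fp a (A.al p x) ((A.M p).sl x)

/-- `K' = (1+F)^{-2} Dh^* (1 + K(h x)) Dh - 1` -/
def K' (x : H) : H →L[ℝ] H :=
  ((1 + A.F x) ^ 2)⁻¹ • ((ContinuousLinearMap.adjoint (A.Dh x)).comp
    ((1 + K (A.h x)).comp (A.Dh x))) - 1

end Asm

end

end QC49
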